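import Mathlib

/-!
Groups with cofinite Zariski topology: every solution set of a one-variable equation with
constants is finite or the whole group.
-/

namespace Pool.Agent.Lib.MP_762844_al

/-- Every solution set of a one-variable equation with constants is finite or the whole group. -/
def Cof (G : Type*) [Group G] : Prop :=
  ∀ l : List (G × ℤ),
    Set.Finite {a : G | (l.map (fun p => p.1 * a ^ p.2)).prod = 1} ∨
      {a : G | (l.map (fun p => p.1 * a ^ p.2)).prod = 1} = Set.univ

variable {G : Type*} [Group G]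

/-- The word maps with constants `G → G`. -/
def W (G : Type*) [Group G] : Subgroup (G → G) :=
  Subgroup.closure (insert id (Set.range (fun g : G => fun _ : G => g)))

theorem id_mem : (fun x : G => x) ∈ W G :=
  Subgroup.subset_closure (Set.mem_insert _ _)

theorem const_mem (g : G) : (fun _ : G => g) ∈ W G :=
  Subgroup.subset_closure (Set.mem_insert_of_mem _ ⟨g, rfl⟩)

theorem mul_mem' {f g : G → G} (hf : f ∈ W G) (hg : g ∈ W G) : (fun x => f x * g x) ∈ W G :=
  (W G).mul_mem hf hg

theorem inv_mem' {f : G → G} (hf : f ∈ W G) : (fun x => (f x)⁻¹) ∈ W G :=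
  (W G).inv_mem hf

theorem pow_mem' {f : G → G} (hf : f ∈ W G) (n : ℕ) : (fun x => f x ^ n) ∈ W G :=
  (W G).pow_mem hf n

theorem comm_mem' {f g : G → G} (hf : f ∈ W G) (hg : g ∈ W G) :
    (fun x => f x * g x * (f x)⁻¹ * (g x)⁻¹) ∈ W G :=
  mul_mem' (mul_mem' (mul_mem' hf hg) (inv_mem' hf)) (inv_mem' hg)

/-- Every word map has a list representation. -/
theorem exists_list {f : G → G} (hf : f ∈ W G) :
    ∃ l : List (G × ℤ), ∀ a, (l.map (fun p => p.1 * a ^ p.2)).prod = f a := by
  induction hf using Subgroup.closure_induction with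
  | mem x hx =>
    rcases hx with rfl | ⟨g, rfl⟩
    · exact ⟨[(1, 1)], fun a => by simp⟩
    · exact ⟨[(g, 0)], fun a => by simp⟩
  | one => exact ⟨[], fun a => by simp⟩
  | mul x y _ _ hx hy =>
    obtain ⟨l, hl⟩ := hx
    obtain ⟨m, hm⟩ := hy
    exact ⟨l ++ m, fun a => by simp [hl, hm]⟩
  | inv x _ hx =>
    obtain ⟨l, hl⟩ := hx
    suffices H : ∀ l : List (G × ℤ), ∃ m : List (G × ℤ), ∀ a,
        (m.map (fun p => p.1 * a ^ p.2)).prod = ((l.map (fun p => p.1 * a ^ p.2)).prod)⁻¹ by
      obtain ⟨m, hm⟩ := H l
      exact ⟨m, fun a => by rw [hm, hl]; rfl⟩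
    intro l
    induction l with
    | nil => exact ⟨[], fun a => by simp⟩
    | cons q l ih =>
      obtain ⟨m, hm⟩ := ih
      refine ⟨m ++ [(1, -q.2), (q.1⁻¹, 0)], fun a => ?_⟩
      simp [hm, mul_assoc]

/-- Composition of word maps. -/
theorem comp_mem {f g : G → G} (hf : f ∈ W G) (hg : g ∈ W G) : (fun x => f (g x)) ∈ W G := by
  induction hf using Subgroup.closure_induction with
  | mem x hx =>
    rcases hx with rfl | ⟨c, rfl⟩
    · exact hg
    · exact const_mem c
  | one => exact const_mem 1
  | mul x y _ _ hx hy => exact mul_mem' hx hy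
  | inv x _ hx => exact inv_mem' hx

section

variable (hC : Cof G)
include hC

/-- A word map which is trivial on an infinite set is trivial. -/
theorem eq_one_of_infinite {f : G → G} (hf : f ∈ W G) {S : Set G} (hS : S.Infinite)
    (h : ∀ x ∈ S, f x = 1) (a : G) : f a = 1 := by
  obtain ⟨l, hl⟩ := exists_list hf
  rcases hC l with h1 | h1
  · exact absurd (h1.subset fun x hx => by simp only [Set.mem_ofPred_eq, hl]; exact h x hx) hS
  · have : a ∈ {a : G | (l.map (fun p => p.1 * a ^ p.2)).prod = 1} := by rw [h1]; trivial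
    simpa only [Set.mem_ofPred_eq, hl] using this

/-- Two word maps which agree on an infinite set are equal. -/
theorem eq_of_infinite {f g : G → G} (hf : f ∈ W G) (hg : g ∈ W G) {S : Set G}
    (hS : S.Infinite) (h : ∀ x ∈ S, f x = g x) (a : G) : f a = g a := by
  have := eq_one_of_infinite hC (mul_mem' hf (inv_mem' hg)) hS
    (fun x hx => by rw [h x hx, mul_inv_cancel]) a
  rwa [mul_inv_eq_one] at this

/-- Fibres of a non-constant word map are finite. -/
theorem fib_finite {f : G → G} (hf : f ∈ W G) {a b : G} (hab : f a ≠ f b) (c : G) :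
    {x | f x = c}.Finite := by
  by_contra h
  have h1 := eq_of_infinite hC hf (const_mem c) h (fun x hx => hx)
  exact hab ((h1 a).trans (h1 b).symm)

/-- Preimages of finite sets under a non-constant word map are finite. -/
theorem preimage_finite {f : G → G} (hf : f ∈ W G) {a b : G} (hab : f a ≠ f b) {T : Set G}
    (hT : T.Finite) : {x | f x ∈ T}.Finite := by
  have : {x | f x ∈ T} = ⋃ c ∈ T, {x | f x = c} := by ext x; simp
  rw [this]
  exact hT.biUnion fun c _ => fib_finite hC hf hab c

/-- Images of infinite sets under a non-constant word map are infinite. -/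
theorem image_infinite {f : G → G} (hf : f ∈ W G) {a b : G} (hab : f a ≠ f b) {S : Set G}
    (hS : S.Infinite) : (f '' S).Infinite := by
  intro h
  exact hS ((preimage_finite hC hf hab h).subset fun x hx => Set.mem_image_of_mem f hx)

theorem centralizer_finite {t : G} (ht : t ∉ Subgroup.center G) : {x : G | x * t = t * x}.Finite := by
  by_contra h
  apply ht
  rw [Subgroup.mem_center_iff]
  intro g
  exact eq_of_infinite hC (mul_mem' id_mem (const_mem t)) (mul_mem' (const_mem t) id_mem) h
    (fun x hx => hx) g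

omit hC in
theorem conj_mem (t : G) : (fun x : G => x * t * x⁻¹) ∈ W G :=
  mul_mem' (mul_mem' id_mem (const_mem t)) (inv_mem' id_mem)

omit hC in
theorem conj_nonconst {t : G} (ht : t ∉ Subgroup.center G) :
    ∃ a b : G, a * t * a⁻¹ ≠ b * t * b⁻¹ := by
  by_contra h
  push Not at h
  apply ht
  rw [Subgroup.mem_center_iff]
  intro g
  have := h g 1
  simp only [one_mul, inv_one, mul_one] at this
  exact mul_inv_eq_iff_eq_mul.mp this

theorem class_infinite [Infinite G] {t : G} (ht : t ∉ Subgroup.center G) :
    (Set.range (fun x : G => x * t * x⁻¹)).Infinite := by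
  obtain ⟨a, b, hab⟩ := conj_nonconst ht
  rw [← Set.image_univ]
  exact image_infinite hC (conj_mem t) hab Set.infinite_univ

theorem center_finite [Infinite G] {a b : G} (hab : a * b ≠ b * a) :
    (Subgroup.center G : Set G).Finite := by
  have ha : b ∉ Subgroup.center G := fun h => hab (Subgroup.mem_center_iff.mp h a)
  exact (centralizer_finite hC ha).subset fun x hx => by
    have := Subgroup.mem_center_iff.mp hx b
    exact this.symm

theorem orderOf_pos [Infinite G] {t : G} (ht : t ∉ Subgroup.center G) : 0 < orderOf t := by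
  rw [orderOf_pos_iff]
  have h : ((Subgroup.zpowers t : Subgroup G) : Set G).Finite := by
    refine (centralizer_finite hC ht).subset ?_
    rintro _ ⟨k, rfl⟩
    exact (Commute.zpow_self t k).eq
  exact finite_zpowers.mp h

theorem pow_orderOf [Infinite G] {t : G} (ht : t ∉ Subgroup.center G) (x : G) :
    x ^ orderOf t = 1 := by
  refine eq_one_of_infinite hC (pow_mem' id_mem _) (class_infinite hC ht) ?_ x
  rintro _ ⟨y, rfl⟩
  simp [conj_pow, pow_orderOf_eq_one]

theorem orderOf_eq [Infinite G] {s t : G} (hs : s ∉ Subgroup.center G)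
    (ht : t ∉ Subgroup.center G) : orderOf s = orderOf t :=
  Nat.dvd_antisymm (orderOf_dvd_of_pow_eq_one (pow_orderOf hC ht s))
    (orderOf_dvd_of_pow_eq_one (pow_orderOf hC hs t))

theorem orderOf_prime [Infinite G] {t : G} (ht : t ∉ Subgroup.center G) : (orderOf t).Prime := by
  have h1 : orderOf t ≠ 1 := by
    intro h
    rw [orderOf_eq_one_iff] at h
    exact ht (h ▸ Subgroup.one_mem _)
  set p := (orderOf t).minFac with hp
  have hpp : p.Prime := Nat.minFac_prime h1
  have hpos := orderOf_pos hC ht
  have hdvd : p ∣ orderOf t := Nat.minFac_dvd _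
  have hcen : t ^ p ∈ Subgroup.center G := by
    by_contra hn
    have h2 := orderOf_eq hC hn ht
    rw [orderOf_pow' t hpp.ne_zero, Nat.gcd_eq_right hdvd] at h2
    have : orderOf t / p < orderOf t := Nat.div_lt_self hpos hpp.one_lt
    omega
  have h3 : ∀ x : G, x ^ p = t ^ p := by
    refine eq_of_infinite hC (pow_mem' id_mem p) (const_mem (t ^ p)) (class_infinite hC ht) ?_
    rintro _ ⟨y, rfl⟩
    have := Subgroup.mem_center_iff.mp hcen y
    simp only [conj_pow]
    rw [this, mul_inv_cancel_right]
  have h4 : t ^ p = 1 := by rw [← h3 1, one_pow]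
  have h5 : orderOf t ∣ p := orderOf_dvd_of_pow_eq_one h4
  rw [Nat.dvd_antisymm h5 hdvd]
  exact hpp

end

/-- In a group of exponent three every element commutes with its conjugates. -/
theorem exp_three (h : ∀ x : G, x ^ 3 = 1) (x y : G) :
    (y * x * y⁻¹) * x = x * (y * x * y⁻¹) := by
  have key : ∀ y : G, x * (y * x * y⁻¹) = y⁻¹ * x⁻¹ * y := by
    intro y
    have h1 : (x * y) * (x * y) * (x * y) = 1 := by
      have := h (x * y); rwa [pow_succ, pow_two] at this
    have h2 : y * y * y = 1 := by
      have := h y; rwa [pow_succ, pow_two] at this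
    have h3 : y⁻¹ = y * y := by
      rw [inv_eq_iff_mul_eq_one]; rw [← mul_assoc]; exact h2
    have h4 : x * y * x * y = y⁻¹ * x⁻¹ := by
      rw [← mul_inv_rev, eq_inv_iff_mul_eq_one]
      simpa only [mul_assoc] using h1
    calc x * (y * x * y⁻¹) = x * y * x * y * y := by rw [h3]; group
      _ = y⁻¹ * x⁻¹ * y := by rw [h4]
  set b := y * x * y⁻¹ with hb
  have h1 : x * b = (y⁻¹ * x * y)⁻¹ := by rw [key y]; group
  have h2 : x * (y⁻¹ * x * y) = b⁻¹ := by
    have := key y⁻¹
    rw [inv_inv] at this
    rw [this, hb]; group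
  set c := y⁻¹ * x * y with hc
  have h3 : c = b⁻¹ * x⁻¹ := by
    rw [← mul_inv_rev, h1, inv_inv]
  have h4 : c = x⁻¹ * b⁻¹ := by
    rw [← h2, inv_mul_cancel_left]
  have h5 : b⁻¹ * x⁻¹ = x⁻¹ * b⁻¹ := h3.symm.trans h4
  have h6 := congrArg (·⁻¹) h5
  simp only [mul_inv_rev, inv_inv] at h6
  exact h6.symm

section

variable (hC : Cof G)
include hC

theorem five_le [Infinite G] {t : G} (ht : t ∉ Subgroup.center G) : 5 ≤ orderOf t := by
  have hp := orderOf_prime hC ht
  have hx := pow_orderOf hC ht
  by_contra hlt
  push Not at hlt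
  have h2 := hp.two_le
  have h4 : orderOf t ≠ 4 := by intro h; rw [h] at hp; revert hp; decide
  have : orderOf t = 2 ∨ orderOf t = 3 := by omega
  rcases this with h | h
  · rw [h] at hx
    apply ht
    rw [Subgroup.mem_center_iff]
    intro g
    have e : ∀ x : G, x⁻¹ = x := fun x => by
      rw [inv_eq_iff_mul_eq_one, ← pow_two]; exact hx x
    have := e (g * t)
    rw [mul_inv_rev, e, e] at this
    exact this.symm
  · rw [h] at hx
    refine class_infinite hC ht ((centralizer_finite hC ht).subset ?_)
    rintro _ ⟨y, rfl⟩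
    exact exp_three hx t y

end


/-- Iterated commutators `[x, t, ..., t]`. -/
def engel {G : Type*} [Group G] (t : G) : ℕ → G → G
  | 0, x => x
  | k + 1, x => engel t k x * t * (engel t k x)⁻¹ * t⁻¹

theorem engel_one (t : G) (k : ℕ) : engel t k 1 = 1 := by
  induction k with
  | zero => rfl
  | succ k ih => simp [engel, ih]

theorem engel_mem (t : G) (k : ℕ) : (fun x => engel t k x) ∈ W G := by
  induction k with
  | zero => exact id_mem
  | succ k ih => exact comm_mem' ih (const_mem t)

theorem engel_lcs (S : Subgroup G) {t x : G} (ht : t ∈ S) (hx : x ∈ S) (k : ℕ) :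
    engel t k x ∈ S.lowerCentralSeries k := by
  induction k with
  | zero => exact hx
  | succ k ih =>
    rw [Subgroup.lowerCentralSeries_succ]
    exact Subgroup.commutator_mem_commutator ih ht

section

variable (hC : Cof G)
include hC

theorem engel_finite {t : G} (ht : t ∉ Subgroup.center G) (k : ℕ) :
    {x : G | engel t k x = 1}.Finite := by
  induction k with
  | zero => exact (Set.finite_singleton (1 : G)).subset fun x hx => hx
  | succ k ih =>
    by_contra hinf
    have hsub : {x : G | engel t (k + 1) x = 1} ⊆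
        {x | engel t k x ∈ {y : G | y * t = t * y}} := by
      intro x hx
      have h1 : engel t k x * t * (engel t k x)⁻¹ * t⁻¹ = 1 := hx
      show engel t k x * t = t * engel t k x
      rw [mul_inv_eq_one, mul_inv_eq_iff_eq_mul] at h1
      exact h1
    have h2 : ¬ ∀ a b : G, engel t k a = engel t k b := by
      intro h
      apply ih.not_infinite
      have : {x : G | engel t k x = 1} = Set.univ := by
        ext x; simp [h x 1, engel_one]
      rw [this]
      exact fun hu => hinf (hu.subset (Set.subset_univ _))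
    push Not at h2
    obtain ⟨a, b, hab⟩ := h2
    exact hinf ((preimage_finite hC (engel_mem t k) hab (centralizer_finite hC ht)).subset hsub)

/-- For non-central `t` only finitely many `x` are such that `⟨t, x t x⁻¹⟩` is nilpotent of class
at most `c`. -/
theorem nilp_finite {t : G} (ht : t ∉ Subgroup.center G) (c : ℕ) :
    {x : G | (Subgroup.closure {t, x * t * x⁻¹}).lowerCentralSeries c = ⊥}.Finite := by
  obtain ⟨a, b, hab⟩ := conj_nonconst ht
  refine (preimage_finite hC (conj_mem t) hab (engel_finite hC ht c)).subset ?_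
  intro x hx
  show engel t c (x * t * x⁻¹) = 1
  have h1 : t ∈ Subgroup.closure {t, x * t * x⁻¹} := Subgroup.subset_closure (by simp)
  have h2 : x * t * x⁻¹ ∈ Subgroup.closure {t, x * t * x⁻¹} :=
    Subgroup.subset_closure (by simp)
  have h3 := engel_lcs _ h1 h2 c
  have hx' : (Subgroup.closure {t, x * t * x⁻¹}).lowerCentralSeries c = ⊥ := hx
  rwa [hx', Subgroup.mem_bot] at h3

end

/-- Evaluation of a word in one of its variables is a word map. -/
theorem update_mem {n : ℕ} (w : FreeGroup (Fin n)) (φ : Fin n → G) (i : Fin n) :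
    (fun x => FreeGroup.lift (Function.update φ i x) w) ∈ W G := by
  induction w using FreeGroup.induction_on with
  | C1 => simpa using const_mem (1 : G)
  | of j =>
    by_cases h : j = i
    · subst h; simpa using id_mem
    · simpa [Function.update_of_ne h] using const_mem (φ j)
  | inv_of j hj => simpa using inv_mem' hj
  | mul u v hu hv => simpa using mul_mem' hu hv

section

variable (hC : Cof G)
include hC

/-- A law of an infinite subset `H` is a law of `G`. -/
theorem law_of_infinite {H : Set G} (hH : H.Infinite) {n : ℕ} (w : FreeGroup (Fin n))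
    (h : ∀ φ : Fin n → G, (∀ i, φ i ∈ H) → FreeGroup.lift φ w = 1) (φ : Fin n → G) :
    FreeGroup.lift φ w = 1 := by
  suffices key : ∀ S : Finset (Fin n), ∀ φ : Fin n → G, (∀ i, i ∉ S → φ i ∈ H) →
      FreeGroup.lift φ w = 1 from key Finset.univ φ (fun i hi => absurd (Finset.mem_univ i) hi)
  intro S
  induction S using Finset.induction_on with
  | empty => exact fun φ hφ => h φ fun i => hφ i (by simp)
  | insert j S hj ih =>
    intro φ hφ
    have := eq_one_of_infinite hC (update_mem w φ j) hH (fun x hx => ih _ fun i hi => ?_) (φ j)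
    · simpa using this
    · by_cases hij : i = j
      · subst hij; simpa using hx
      · rw [Function.update_of_ne hij]
        exact hφ i (by simp [hij, hi])

/-- A word which is not a law takes infinitely many values on every infinite subgroup. -/
theorem law_or {n : ℕ} (w : FreeGroup (Fin n)) (hw : ¬ ∀ φ : Fin n → G, FreeGroup.lift φ w = 1)
    (H : Subgroup G) (hH : (H : Set G).Infinite) :
    {g : G | ∃ φ : Fin n → G, (∀ i, φ i ∈ H) ∧ FreeGroup.lift φ w = g}.Infinite := by
  have h1 : ∃ φ : Fin n → G, (∀ i, φ i ∈ H) ∧ FreeGroup.lift φ w ≠ 1 := by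
    by_contra hc
    push Not at hc
    exact hw (law_of_infinite hC hH w hc)
  obtain ⟨φ, hφ, hne⟩ := h1
  -- replace the values of `φ` by `1` one after the other
  suffices key : ∀ S : Finset (Fin n), ∀ φ : Fin n → G, (∀ i, φ i ∈ H) →
      (∀ i, i ∉ S → φ i = 1) → FreeGroup.lift φ w ≠ 1 →
      {g : G | ∃ φ : Fin n → G, (∀ i, φ i ∈ H) ∧ FreeGroup.lift φ w = g}.Infinite from
    key Finset.univ φ hφ (fun i hi => absurd (Finset.mem_univ i) hi) hne
  intro S
  induction S using Finset.induction_on with
  | empty =>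
    intro φ _ h1 h2
    exfalso
    apply h2
    have : φ = fun _ => 1 := funext fun i => h1 i (by simp)
    rw [this]
    have h3 : (FreeGroup.lift fun _ : Fin n => (1 : G)) = 1 := by
      ext i; simp
    rw [h3]; rfl
  | insert j S hj ih =>
    intro φ hφ h1 h2
    by_cases h3 : FreeGroup.lift (Function.update φ j 1) w = 1
    · have h4 : FreeGroup.lift (Function.update φ j (φ j)) w ≠
          FreeGroup.lift (Function.update φ j 1) w := by
        rw [h3, Function.update_eq_self]; exact h2
      have h5 := image_infinite hC (update_mem w φ j) h4 hH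
      refine h5.mono ?_
      rintro _ ⟨x, hx, rfl⟩
      refine ⟨_, fun i => ?_, rfl⟩
      by_cases hij : i = j
      · subst hij; simpa using hx
      · rw [Function.update_of_ne hij]; exact hφ i
    · refine ih (Function.update φ j 1) (fun i => ?_) (fun i hi => ?_) h3
      · by_cases hij : i = j
        · subst hij; simp [H.one_mem]
        · rw [Function.update_of_ne hij]; exact hφ i
      · by_cases hij : i = j
        · subst hij; simp
        · rw [Function.update_of_ne hij]; exact h1 i (by simp [hij, hi])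

/-- Two commuting sets of values: one of the two words is a law. -/
theorem comm_law [Infinite G] (hna : ∃ a b : G, a * b ≠ b * a) {m n : ℕ} (u : FreeGroup (Fin m))
    (v : FreeGroup (Fin n))
    (h : ∀ (φ : Fin m → G) (ψ : Fin n → G),
      FreeGroup.lift φ u * FreeGroup.lift ψ v = FreeGroup.lift ψ v * FreeGroup.lift φ u) :
    (∀ φ : Fin m → G, FreeGroup.lift φ u = 1) ∨ ∀ ψ : Fin n → G, FreeGroup.lift ψ v = 1 := by
  by_contra hc
  push Not at hc
  obtain ⟨⟨φ, hφ⟩, ⟨ψ, hψ⟩⟩ := hc
  have hu := law_or hC u (fun h => hφ (h φ)) ⊤ (by simpa using Set.infinite_univ)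
  have hv := law_or hC v (fun h => hψ (h ψ)) ⊤ (by simpa using Set.infinite_univ)
  have hcen : ∀ ψ : Fin n → G, FreeGroup.lift ψ v ∈ Subgroup.center G := by
    intro ψ
    by_contra hn
    apply hu
    refine (centralizer_finite hC hn).subset ?_
    rintro _ ⟨φ, _, rfl⟩
    exact h φ ψ
  obtain ⟨a, b, hab⟩ := hna
  apply hv
  refine (center_finite hC hab).subset ?_
  rintro _ ⟨ψ, _, rfl⟩
  exact hcen ψ

/-- The quotient by the centre. -/
theorem quot_cof [Infinite G] (hna : ∃ a b : G, a * b ≠ b * a) : Cof (G ⧸ Subgroup.center G) := by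
  intro l
  have hl : ∃ f ∈ W G, ∀ a : G,
      (l.map (fun p => p.1 * (a : G ⧸ Subgroup.center G) ^ p.2)).prod = ((f a : G) : G ⧸ Subgroup.center G) := by
    induction l with
    | nil => exact ⟨_, const_mem 1, fun a => by simp⟩
    | cons q l ih =>
      obtain ⟨f, hf, h⟩ := ih
      obtain ⟨q1, q2⟩ := q
      obtain ⟨g, rfl⟩ := QuotientGroup.mk_surjective q1
      refine ⟨_, mul_mem' (mul_mem' (const_mem g) ((W G).zpow_mem id_mem q2)) hf, fun a => ?_⟩
      simp [h]
  obtain ⟨f, hf, h⟩ := hl
  by_cases hc : ∀ a b : G, f a = f b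
  · by_cases h1 : (f 1 : G ⧸ Subgroup.center G) = 1
    · right
      ext a
      obtain ⟨a, rfl⟩ := QuotientGroup.mk_surjective a
      simp only [Set.mem_univ, iff_true]
      show (l.map (fun p => p.1 * (a : G ⧸ Subgroup.center G) ^ p.2)).prod = 1
      rw [h, hc a 1, h1]
    · left
      have : {a : G ⧸ Subgroup.center G | (l.map (fun p => p.1 * a ^ p.2)).prod = 1} = ∅ := by
        ext a
        obtain ⟨a, rfl⟩ := QuotientGroup.mk_surjective a
        simp only [Set.mem_empty_iff_false, iff_false]
        intro h2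
        have h2' : (l.map (fun p => p.1 * (a : G ⧸ Subgroup.center G) ^ p.2)).prod = 1 := h2
        rw [h, hc a 1] at h2'
        exact h1 h2'
      rw [this]
      exact Set.finite_empty
  · left
    push Not at hc
    obtain ⟨a, b, hab⟩ := hc
    obtain ⟨x, y, hxy⟩ := hna
    have h2 := preimage_finite hC hf hab (center_finite hC hxy)
    refine (h2.image (fun x : G => (x : G ⧸ Subgroup.center G))).subset ?_
    intro a ha
    obtain ⟨a, rfl⟩ := QuotientGroup.mk_surjective a
    refine ⟨a, ?_, rfl⟩
    have ha' : (l.map (fun p => p.1 * (a : G ⧸ Subgroup.center G) ^ p.2)).prod = 1 := ha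
    rw [h, QuotientGroup.eq_one_iff] at ha'
    exact ha'

theorem quot_center [Infinite G] (hna : ∃ a b : G, a * b ≠ b * a) :
    Subgroup.center (G ⧸ Subgroup.center G) = ⊥ := by
  rw [eq_bot_iff]
  intro a ha
  obtain ⟨a, rfl⟩ := QuotientGroup.mk_surjective a
  rw [Subgroup.mem_bot, QuotientGroup.eq_one_iff]
  by_contra hn
  obtain ⟨x, y, hxy⟩ := hna
  apply class_infinite hC hn
  refine ((center_finite hC hxy).image (fun z => z * a)).subset ?_
  rintro _ ⟨g, rfl⟩
  refine ⟨g * a * g⁻¹ * a⁻¹, ?_, by simp⟩
  show g * a * g⁻¹ * a⁻¹ ∈ Subgroup.center G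
  rw [← QuotientGroup.eq_one_iff]
  have := Subgroup.mem_center_iff.mp ha (g : G ⧸ Subgroup.center G)
  simp only [QuotientGroup.mk_mul, QuotientGroup.mk_inv]
  have h3 : (g : G ⧸ Subgroup.center G) * (a : G ⧸ Subgroup.center G) = a * g := this
  rw [h3]; simp

end

end Pool.Agent.Lib.MP_762844_al
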