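import Pool.Agent.Lib.MP_762844_al.Cof

/-!
Equations with constants in several variables.
-/

set_option autoImplicit false

namespace Pool.Agent.Lib.MP_762844_al

universe u

variable {G : Type u} [Group G]

/-- Evaluation of a word with constants in one of its variables. -/
theorem update_memC {n : ℕ} (w : FreeGroup (G ⊕ Fin n)) (φ : Fin n → G) (j : Fin n) :
    (fun x => FreeGroup.lift (Sum.elim id (Function.update φ j x)) w) ∈ W G := by
  induction w using FreeGroup.induction_on with
  | C1 => simpa using const_mem (1 : G)
  | of i =>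
    rcases i with g | i
    · simpa using const_mem g
    · by_cases h : i = j
      · subst h; simpa using id_mem
      · simpa [Function.update_of_ne h] using const_mem (φ i)
  | inv_of i hi => simpa using inv_mem' hi
  | mul u v hu hv => simpa using mul_mem' hu hv

/-- Products of infinite sets are dense. -/
theorem dense_prod (hC : Cof G) {n : ℕ} (A : Fin n → Set G) (hA : ∀ i, (A i).Infinite)
    (S : Finset (FreeGroup (G ⊕ Fin n)))
    (h : ∀ φ : Fin n → G, (∀ i, φ i ∈ A i) →
      ∃ w ∈ S, FreeGroup.lift (Sum.elim id φ) w = 1) :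
    ∃ w ∈ S, ∀ φ : Fin n → G, FreeGroup.lift (Sum.elim id φ) w = 1 := by
  classical
  have key : ∀ s : Finset (Fin n), ∀ ψ : Fin n → G,
      (∀ φ : Fin n → G, (∀ i ∈ s, φ i ∈ A i) → (∀ i, i ∉ s → φ i = ψ i) →
        ∃ w ∈ S, FreeGroup.lift (Sum.elim id φ) w = 1) →
      ∃ w ∈ S, ∀ φ : Fin n → G, (∀ i, i ∉ s → φ i = ψ i) →
        FreeGroup.lift (Sum.elim id φ) w = 1 := by
    intro s
    induction s using Finset.induction_on with
    | empty =>
      intro ψ h1
      obtain ⟨w, hw, hw1⟩ := h1 ψ (fun i hi => absurd hi (Finset.notMem_empty i)) fun i _ => rfl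
      refine ⟨w, hw, fun φ hφ => ?_⟩
      have : φ = ψ := funext fun i => hφ i (Finset.notMem_empty i)
      rw [this]
      exact hw1
    | insert j s hj ih =>
      intro ψ h1
      have h2 : ∀ y : A j, ∃ w : S, ∀ φ : Fin n → G,
          (∀ i, i ∉ s → φ i = Function.update ψ j y i) →
            FreeGroup.lift (Sum.elim id φ) w.1 = 1 := by
        intro y
        obtain ⟨w, hw, hw1⟩ := ih (Function.update ψ j y) (fun φ hφ hφ' => h1 φ
          (fun i hi => by
            rcases Finset.mem_insert.1 hi with rfl | hi
            · rw [hφ' i hj, Function.update_self]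
              exact y.2
            · exact hφ i hi)
          fun i hi => by
            rw [Finset.mem_insert, not_or] at hi
            rw [hφ' i hi.2, Function.update_of_ne hi.1])
        exact ⟨⟨w, hw⟩, hw1⟩
      choose u hu using h2
      have hinf : Infinite (A j) := (hA j).to_subtype
      obtain ⟨w, hw⟩ := Finite.exists_infinite_fiber u
      have hw' : (Subtype.val '' (u ⁻¹' {w}) : Set G).Infinite :=
        (Set.infinite_coe_iff.1 hw).image Subtype.val_injective.injOn
      refine ⟨w.1, w.2, fun φ hφ => ?_⟩
      have h3 := eq_one_of_infinite hC (update_memC w.1 φ j) hw' (fun y hy => ?_) (φ j)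
      · simpa using h3
      · obtain ⟨y, hy, rfl⟩ := hy
        have hy' : u y = w := hy
        rw [← hy']
        apply hu
        intro i hi
        by_cases hij : i = j
        · subst hij; simp
        · rw [Function.update_of_ne hij, Function.update_of_ne hij]
          exact hφ i (by simp [hij, hi])
  obtain ⟨w, hw, hw1⟩ := key Finset.univ 1 (fun φ hφ _ => h φ fun i => hφ i (Finset.mem_univ i))
  exact ⟨w, hw, fun φ => hw1 φ fun i hi => absurd (Finset.mem_univ i) hi⟩

end Pool.Agent.Lib.MP_762844_al
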