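import Mathlib

/-!
Evaluation points.
-/

set_option autoImplicit false

namespace Pool.Agent.Lib.MP_762844_al

/-- the point `(x 0, ..., x (n - 1), z)` -/
def ev {G : Type*} (x : ℕ → G) (n : ℕ) (z : G) : Fin (n + 1) → G :=
  fun i => if (i : ℕ) < n then x i else z

end Pool.Agent.Lib.MP_762844_al
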