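import Pool.Agent.Lib.MP_762844_al.Cof

/-!
Uncountable groups with cofinite Zariski topology contain relatively free groups of infinite rank.
-/

set_option autoImplicit false

namespace Pool.Agent.Lib.MP_762844_al

universe u

variable {G : Type u} [Group G]

/-- The word maps with constants in the subgroup `B`. -/
def WB (B : Subgroup G) : Subgroup (G → G) :=
  Subgroup.closure (insert id (Set.range (fun g : B => fun _ : G => (g : G))))

theorem wb_le (B : Subgroup G) : WB B ≤ W G := by
  apply Subgroup.closure_mono
  apply Set.insert_subset_insert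
  rintro _ ⟨g, rfl⟩
  exact ⟨g, rfl⟩

theorem wb_id (B : Subgroup G) : (fun x : G => x) ∈ WB B :=
  Subgroup.subset_closure (Set.mem_insert _ _)

theorem wb_const {B : Subgroup G} {g : G} (hg : g ∈ B) : (fun _ : G => g) ∈ WB B :=
  Subgroup.subset_closure (Set.mem_insert_of_mem _ ⟨⟨g, hg⟩, rfl⟩)

/-- Every word map has a list representation. -/
theorem exists_listB {B : Subgroup G} {f : G → G} (hf : f ∈ WB B) :
    ∃ l : List (B × ℤ), ∀ a, (l.map (fun p => (p.1 : G) * a ^ p.2)).prod = f a := by
  induction hf using Subgroup.closure_induction with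
  | mem x hx =>
    rcases hx with rfl | ⟨g, rfl⟩
    · exact ⟨[(1, 1)], fun a => by simp⟩
    · exact ⟨[(g, 0)], fun a => by simp⟩
  | one => exact ⟨[], fun a => by simp⟩
  | mul x y _ _ hx hy =>
    obtain ⟨l, hl⟩ := hx
    obtain ⟨m, hm⟩ := hy
    exact ⟨l ++ m, fun a => by simp [hl, hm]⟩
  | inv x _ hx =>
    obtain ⟨l, hl⟩ := hx
    suffices H : ∀ l : List (B × ℤ), ∃ m : List (B × ℤ), ∀ a,
        (m.map (fun p => (p.1 : G) * a ^ p.2)).prod =
          ((l.map (fun p => (p.1 : G) * a ^ p.2)).prod)⁻¹ by
      obtain ⟨m, hm⟩ := H l
      exact ⟨m, fun a => by rw [hm, hl]; rfl⟩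
    intro l
    induction l with
    | nil => exact ⟨[], fun a => by simp⟩
    | cons q l ih =>
      obtain ⟨m, hm⟩ := ih
      refine ⟨m ++ [(1, -q.2), (q.1⁻¹, 0)], fun a => ?_⟩
      simp [hm, mul_assoc]

theorem closure_countable {S : Set G} (hS : S.Countable) :
    Countable (Subgroup.closure S) := by
  have hc : Countable S := hS.to_subtype
  have h1 : Subgroup.closure S ≤ (FreeGroup.lift (Subtype.val : S → G)).range := by
    rw [Subgroup.closure_le]
    intro x hx
    exact ⟨FreeGroup.of ⟨x, hx⟩, by simp⟩
  have h2 : ((Subgroup.closure S : Subgroup G) : Set G).Countable := by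
    refine (Set.countable_range (FreeGroup.lift (Subtype.val : S → G))).mono ?_
    intro x hx
    obtain ⟨y, hy⟩ := h1 hx
    exact ⟨y, hy⟩
  exact h2.to_subtype

/-- An element which is generic over a countable subgroup. -/
theorem exists_generic [Uncountable G] (hC : Cof G) {S : Set G} (hS : S.Countable) :
    ∃ x : G, ∀ f ∈ WB (Subgroup.closure S), f x = 1 → ∀ a, f a = 1 := by
  have hB := closure_countable hS
  let E : List (Subgroup.closure S × ℤ) → Set G := fun l =>
    {a : G | (l.map (fun p => (p.1 : G) * a ^ p.2)).prod = 1}
  have h1 : (⋃ l ∈ {l | (E l).Finite}, E l).Countable :=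
    Set.Countable.biUnion (Set.to_countable _) (fun l hl => Set.Finite.countable hl)
  obtain ⟨x, hx⟩ : ∃ x : G, x ∉ ⋃ l ∈ {l | (E l).Finite}, E l := by
    by_contra h
    push Not at h
    exact Set.not_countable_univ (h1.mono fun x _ => h x)
  refine ⟨x, fun f hf hfx a => ?_⟩
  obtain ⟨l, hl⟩ := exists_listB hf
  have hE : E l = {a : G | ((l.map (fun p => ((p.1 : G), p.2))).map
      (fun p => p.1 * a ^ p.2)).prod = 1} := by
    simp only [List.map_map, E]
    rfl
  rcases hC (l.map (fun p => ((p.1 : G), p.2))) with h2 | h2
  · exfalso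
    apply hx
    simp only [Set.mem_iUnion]
    refine ⟨l, ?_, ?_⟩
    · show (E l).Finite
      rw [hE]
      exact h2
    · show (l.map (fun p => (p.1 : G) * x ^ p.2)).prod = 1
      rw [hl, hfx]
  · have h3 : a ∈ E l := by
      rw [hE, h2]
      trivial
    have h4 : (l.map (fun p => (p.1 : G) * a ^ p.2)).prod = 1 := h3
    rwa [hl] at h4

/-- Evaluation of a word in one of its variables. -/
theorem update_memB {B : Subgroup G} (w : FreeGroup ℕ) (φ : ℕ → G) (j : ℕ)
    (h : ∀ i, i ≠ j → φ i ∈ B) :
    (fun x => FreeGroup.lift (Function.update φ j x) w) ∈ WB B := by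
  induction w using FreeGroup.induction_on with
  | C1 =>
    have h0 : (fun x : G => FreeGroup.lift (Function.update φ j x) 1) = 1 := by
      funext x
      simp
    rw [h0]
    exact (WB B).one_mem
  | of i =>
    by_cases hi : i = j
    · subst hi; simpa using wb_id B
    · simpa [Function.update_of_ne hi] using wb_const (h i hi)
  | inv_of i hi =>
    have h0 : (fun x : G => FreeGroup.lift (Function.update φ j x) (FreeGroup.of i)⁻¹) =
        (fun x : G => FreeGroup.lift (Function.update φ j x) (FreeGroup.of i))⁻¹ := by
      funext x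
      rw [map_inv]
      rfl
    exact h0 ▸ (WB B).inv_mem hi
  | mul u v hu hv =>
    have h0 : (fun x : G => FreeGroup.lift (Function.update φ j x) (u * v)) =
        (fun x : G => FreeGroup.lift (Function.update φ j x) u) *
          fun x : G => FreeGroup.lift (Function.update φ j x) v := by
      funext x
      rw [map_mul]
      rfl
    rw [h0]
    exact (WB B).mul_mem hu hv

theorem lift_mem (K : Subgroup G) (f : ℕ → G) (h : ∀ i, f i ∈ K) (u : FreeGroup ℕ) :
    FreeGroup.lift f u ∈ K := by
  induction u using FreeGroup.induction_on with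
  | C1 => simpa using K.one_mem
  | of i => simpa using h i
  | inv_of i hi => rw [map_inv]; exact K.inv_mem hi
  | mul u v hu hv => rw [map_mul]; exact K.mul_mem hu hv

/-- A word involves only finitely many letters. -/
theorem supp (w : FreeGroup ℕ) : ∃ N : ℕ, ∀ φ ψ : ℕ → G, (∀ i < N, φ i = ψ i) →
    FreeGroup.lift φ w = FreeGroup.lift ψ w := by
  induction w using FreeGroup.induction_on with
  | C1 => exact ⟨0, fun φ ψ _ => by simp⟩
  | of i => exact ⟨i + 1, fun φ ψ h => by simpa using h i (Nat.lt_succ_self i)⟩
  | inv_of i hi =>
    obtain ⟨N, hN⟩ := hi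
    exact ⟨N, fun φ ψ h => by rw [map_inv, map_inv, hN φ ψ h]⟩
  | mul u v hu hv =>
    obtain ⟨N, hN⟩ := hu
    obtain ⟨M, hM⟩ := hv
    refine ⟨max N M, fun φ ψ h => ?_⟩
    rw [map_mul, map_mul, hN φ ψ fun i hi => h i (lt_of_lt_of_le hi (le_max_left _ _)),
      hM φ ψ fun i hi => h i (lt_of_lt_of_le hi (le_max_right _ _))]

/-- A law of an infinite subset is a law. -/
theorem law_nat (hC : Cof G) {A : Set G} (hA : A.Infinite) (w : FreeGroup ℕ)
    (h : ∀ a : ℕ → G, (∀ i, a i ∈ A) → FreeGroup.lift a w = 1) (φ : ℕ → G) :
    FreeGroup.lift φ w = 1 := by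
  have key : ∀ k : ℕ, ∀ a : ℕ → G, (∀ i, a i ∈ A) →
      FreeGroup.lift (fun i => if i < k then φ i else a i) w = 1 := by
    intro k
    induction k with
    | zero =>
      intro a ha
      simpa using h a ha
    | succ k ih =>
      intro a ha
      have h1 := eq_one_of_infinite hC
        (wb_le ⊤ (update_memB w (fun i => if i < k then φ i else a i) k
          (fun i _ => Subgroup.mem_top _))) hA (fun y hy => ?_) (φ k)
      · have h2 : Function.update (fun i => if i < k then φ i else a i) k (φ k) =
            fun i => if i < k + 1 then φ i else a i := by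
          funext i
          by_cases hi : i = k
          · subst hi; simp
          · rw [Function.update_of_ne hi]
            have : (i < k) ↔ (i < k + 1) := by omega
            simp only [this]
        rwa [h2] at h1
      · have h3 : Function.update (fun i => if i < k then φ i else a i) k y =
            fun i => if i < k then φ i else (Function.update a k y) i := by
          funext i
          by_cases hi : i = k
          · subst hi; simp
          · rw [Function.update_of_ne hi, Function.update_of_ne hi]
        rw [h3]
        apply ih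
        intro i
        by_cases hi : i = k
        · subst hi; simpa using hy
        · rw [Function.update_of_ne hi]; exact ha i
  obtain ⟨N, hN⟩ := supp (G := G) w
  obtain ⟨a, ha⟩ := hA.nonempty
  rw [hN φ (fun i => if i < N then φ i else a) fun i hi => by simp [hi]]
  exact key N (fun _ => a) (fun _ => ha)

section chain

variable [Uncountable G] (hC : Cof G) (A : Set G) (hA : A.Countable)

/-- the generic element over the closure of a countable set -/
noncomputable def pick (S : {S : Set G // S.Countable}) : G :=
  (exists_generic hC S.2).choose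

theorem pick_spec (S : {S : Set G // S.Countable}) :
    ∀ f ∈ WB (Subgroup.closure S.1), f (pick hC S) = 1 → ∀ a, f a = 1 :=
  (exists_generic hC S.2).choose_spec

/-- the chain of countable sets -/
noncomputable def chain : ℕ → {S : Set G // S.Countable}
  | 0 => ⟨A, hA⟩
  | n + 1 => ⟨insert (pick hC (chain n)) (chain n).1, (chain n).2.insert _⟩

theorem chain_mono {m n : ℕ} (h : m ≤ n) : (chain hC A hA m).1 ⊆ (chain hC A hA n).1 := by
  induction n, h using Nat.le_induction with
  | base => exact subset_rfl
  | succ n _ ih => exact ih.trans (Set.subset_insert _ _)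

/-- the generic sequence -/
noncomputable def gseq (n : ℕ) : G := pick hC (chain hC A hA n)

theorem gseq_mem {i n : ℕ} (h : i < n) : gseq hC A hA i ∈ (chain hC A hA n).1 :=
  chain_mono hC A hA (Nat.succ_le_of_lt h) (Set.mem_insert _ _)

theorem gseq_law (hAi : A.Infinite) (w : FreeGroup ℕ)
    (hw : FreeGroup.lift (gseq hC A hA) w = 1) (φ : ℕ → G) : FreeGroup.lift φ w = 1 := by
  refine law_nat hC hAi w ?_ φ
  obtain ⟨N, hN⟩ := supp (G := G) w
  have key : ∀ k j : ℕ, j + k = N → ∀ a : ℕ → G, (∀ i, a i ∈ A) →
      FreeGroup.lift (fun i => if i < j then gseq hC A hA i else a i) w = 1 := by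
    intro k
    induction k with
    | zero =>
      intro j hj a _
      rw [hN _ (gseq hC A hA) fun i hi => by
        have : i < j := by omega
        simp [this]]
      exact hw
    | succ k ih =>
      intro j hj a ha
      have h1 := pick_spec hC (chain hC A hA j)
        (fun y => FreeGroup.lift (Function.update
          (fun i => if i < j then gseq hC A hA i else a i) j y) w)
        (update_memB w _ j (fun i hi => ?_)) ?_ (a j)
      · have h2 : Function.update (fun i => if i < j then gseq hC A hA i else a i) j (a j) =
            fun i => if i < j then gseq hC A hA i else a i := by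
          funext i
          by_cases hi : i = j
          · subst hi; simp
          · rw [Function.update_of_ne hi]
        simpa only [h2] using h1
      · by_cases hij : i < j
        · simp only [hij, if_true]
          exact Subgroup.subset_closure (gseq_mem hC A hA hij)
        · simp only [hij, if_false]
          exact Subgroup.subset_closure (chain_mono hC A hA (Nat.zero_le j) (ha i))
      · have h3 : Function.update (fun i => if i < j then gseq hC A hA i else a i) j
            (pick hC (chain hC A hA j)) =
            fun i => if i < j + 1 then gseq hC A hA i else a i := by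
          funext i
          by_cases hi : i = j
          · subst hi; simp [gseq]
          · rw [Function.update_of_ne hi]
            have : (i < j) ↔ (i < j + 1) := by omega
            simp only [this]
        show FreeGroup.lift _ w = 1
        rw [h3]
        exact ih (j + 1) (by omega) a ha
  intro a ha
  have := key N 0 (by omega) a ha
  simpa using this

end chain

/-- Subgroups inherit the property. -/
theorem cof_subgroup (hC : Cof G) (H : Subgroup G) : Cof H := by
  intro l
  have h1 : ∀ a : H, (((l.map (fun p => p.1 * a ^ p.2)).prod : H) : G) =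
      ((l.map (fun p => ((p.1 : G), p.2))).map (fun p => p.1 * (a : G) ^ p.2)).prod := by
    intro a
    induction l with
    | nil => simp
    | cons q l ih =>
      simp only [List.map_cons, List.prod_cons, Subgroup.coe_mul, Subgroup.coe_zpow]
      rw [ih]
  have h2 : {a : H | (l.map (fun p => p.1 * a ^ p.2)).prod = 1} = Subtype.val ⁻¹'
      {a : G | ((l.map (fun p => ((p.1 : G), p.2))).map (fun p => p.1 * a ^ p.2)).prod = 1} := by
    ext a
    show _ = 1 ↔ _ = 1
    rw [← h1 a]
    exact (OneMemClass.coe_eq_one).symm
  rw [h2]
  rcases hC (l.map (fun p => ((p.1 : G), p.2))) with h | h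
  · left
    exact h.preimage Subtype.val_injective.injOn
  · right
    rw [h]
    rfl

/-- The words in the first `n` letters and one more letter. -/
theorem over_free (hC : Cof G) (x : ℕ → G)
    (hx : ∀ w : FreeGroup ℕ, FreeGroup.lift x w = 1 → ∀ φ : ℕ → G, FreeGroup.lift φ w = 1)
    (n : ℕ) (z : G) (hz : z ∈ Subgroup.closure (Set.range x))
    (hzn : z ∉ Subgroup.closure (x '' Set.Iio n)) (w : FreeGroup ℕ)
    (hw : FreeGroup.lift (Function.update x n z) w = 1) 
    (hs : ∀ φ ψ : ℕ → G, (∀ i < n + 1, φ i = ψ i) → FreeGroup.lift φ w = FreeGroup.lift ψ w)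
    (φ : ℕ → G) : FreeGroup.lift φ w = 1 := by
  have hxm : x n = Function.update x n (x n) n := by simp
  have hf := wb_le ⊤ (update_memB w x n (fun i _ => Subgroup.mem_top _))
  by_cases hall : FreeGroup.lift x w = 1
  · exact hx w hall φ
  -- the solution set is finite
  have hfin : {y : G | FreeGroup.lift (Function.update x n y) w = 1}.Finite := by
    by_contra hinf
    apply hall
    have h1 := eq_one_of_infinite hC hf hinf (fun y hy => hy) (x n)
    simpa using h1
  exfalso
  obtain ⟨v, hv⟩ : ∃ v : FreeGroup ℕ, FreeGroup.lift x v = z := by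
    have h1 : Subgroup.closure (Set.range x) ≤ (FreeGroup.lift x).range := by
      rw [Subgroup.closure_le]
      rintro _ ⟨i, rfl⟩
      exact ⟨FreeGroup.of i, by simp⟩
    exact h1 hz
  obtain ⟨M, hM⟩ := supp (G := G) v
  -- the relation as a law
  have hlaw : ∀ φ : ℕ → G, FreeGroup.lift (Function.update φ n (FreeGroup.lift φ v)) w = 1 := by
    intro φ
    have h1 : ∀ ψ : ℕ → G, FreeGroup.lift ψ
        (FreeGroup.lift (Function.update FreeGroup.of n v) w) =
          FreeGroup.lift (Function.update ψ n (FreeGroup.lift ψ v)) w := by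
      intro ψ
      have h2 : (FreeGroup.lift ψ).comp (FreeGroup.lift (Function.update FreeGroup.of n v)) =
          FreeGroup.lift (Function.update ψ n (FreeGroup.lift ψ v)) := by
        ext i
        by_cases hi : i = n
        · subst hi; simp
        · simp [Function.update_of_ne hi]
      exact DFunLike.congr_fun h2 w
    rw [← h1]
    apply hx
    rw [h1, hv]
    exact hw
  let σ : ℕ → ℕ → ℕ := fun k i => if i < n then i else i + k
  have hmem : ∀ k : ℕ, FreeGroup.lift (fun i => x (σ k i)) v ∈
      {y : G | FreeGroup.lift (Function.update x n y) w = 1} := by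
    intro k
    show FreeGroup.lift (Function.update x n _) w = 1
    rw [← hlaw (fun i => x (σ k i))]
    apply hs
    intro i hi
    by_cases hin : i = n
    · subst hin; simp
    · rw [Function.update_of_ne hin, Function.update_of_ne hin]
      have : i < n := by omega
      simp [σ, this]
  obtain ⟨y, hy⟩ : ∃ y : G, {k : ℕ | FreeGroup.lift (fun i => x (σ k i)) v = y}.Infinite := by
    by_contra hno
    push Not at hno
    have h1 : (Set.univ : Set ℕ) ⊆ ⋃ y ∈ {y : G | FreeGroup.lift (Function.update x n y) w = 1},
        {k : ℕ | FreeGroup.lift (fun i => x (σ k i)) v = y} := by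
      intro k _
      simp only [Set.mem_iUnion]
      exact ⟨_, hmem k, rfl⟩
    have h2 : (⋃ y ∈ {y : G | FreeGroup.lift (Function.update x n y) w = 1},
        {k : ℕ | FreeGroup.lift (fun i => x (σ k i)) v = y}).Finite :=
      hfin.biUnion fun y _ => by
        have := hno y
        simpa using this
    exact Set.infinite_univ (h2.subset h1)
  obtain ⟨j, hj⟩ := hy.nonempty
  obtain ⟨k, hk, hkj⟩ := hy.exists_gt (j + M)
  have hjk : FreeGroup.lift (fun i => x (σ j i)) v = FreeGroup.lift (fun i => x (σ k i)) v := by
    have h1 : FreeGroup.lift (fun i => x (σ j i)) v = y := hj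
    have h2 : FreeGroup.lift (fun i => x (σ k i)) v = y := hk
    rw [h1, h2]
  have hmap : ∀ (m : ℕ) (ψ : ℕ → G), FreeGroup.lift ψ (FreeGroup.map (σ m) v) =
      FreeGroup.lift (fun i => ψ (σ m i)) v := by
    intro m ψ
    have h2 : (FreeGroup.lift ψ).comp (FreeGroup.map (σ m)) =
        FreeGroup.lift (fun i => ψ (σ m i)) := by
      ext i
      simp
    exact DFunLike.congr_fun h2 v
  have hlaw2 : ∀ ψ : ℕ → G, FreeGroup.lift (fun i => ψ (σ j i)) v =
      FreeGroup.lift (fun i => ψ (σ k i)) v := by
    intro ψ
    have h1 := hx (FreeGroup.map (σ j) v * (FreeGroup.map (σ k) v)⁻¹) (by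
      rw [map_mul, map_inv, hmap, hmap, hjk, mul_inv_cancel]) ψ
    rw [map_mul, map_inv, hmap, hmap, mul_inv_eq_one] at h1
    exact h1
  apply hzn
  have h5 := hlaw2 (fun m => if m < n then x m else if m < M + j then x (m - j) else 1)
  rw [hM _ x (fun i hi => ?_), hv] at h5
  · rw [h5]
    apply lift_mem
    intro i
    by_cases hi : i < n
    · simp only [σ, hi, if_true]
      exact Subgroup.subset_closure ⟨i, hi, rfl⟩
    · have h7 : ¬ (i + k < n) := by omega
      have h8 : ¬ (i + k < M + j) := by omega
      simp only [σ, hi, h7, h8, if_false]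
      exact Subgroup.one_mem _
  · by_cases hi' : i < n
    · simp [σ, hi']
    · have h7 : ¬ (i + j < n) := by omega
      have h8 : i + j < M + j := by omega
      simp [σ, hi', h7, h8]

end Pool.Agent.Lib.MP_762844_al
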