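import Mathlib

/-!
Uniform bounds for the numbers of solutions.
-/

set_option autoImplicit false

namespace Pool.Agent.Lib.MP_762844_al

/-- Every equation `g₁ a ^ k₁ ⋯ gₙ a ^ kₙ = 1` has at most `b [k₁, ..., kₙ]` solutions `a`, or all `a` are
solutions. -/
def UCof (G : Type*) [Group G] (b : List ℤ → ℕ) : Prop :=
  ∀ l : List (G × ℤ),
    {a : G | (l.map (fun p => p.1 * a ^ p.2)).prod = 1}.encard ≤ b (l.map Prod.snd) ∨
      {a : G | (l.map (fun p => p.1 * a ^ p.2)).prod = 1} = Set.univ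

end Pool.Agent.Lib.MP_762844_al
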