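import Pool.Agent.Lib.MP_762844_al.RF
import Pool.Agent.Lib.MP_762844_al.UCofDef

/-!
Uniform bounds pass to the relatively free groups.
-/

set_option autoImplicit false

namespace Pool.Agent.Lib.MP_762844_al

universe u v

variable {G : Type u} [Group G]

theorem UCof.cof {b : List ℤ → ℕ} (h : UCof G b) : Cof G := by
  intro l
  rcases h l with h1 | h1
  · left
    exact Set.finite_of_encard_le_coe h1
  · right
    exact h1

theorem exists_depF {I : Type v} (w : FreeGroup I) : ∃ J : Finset I, Dep G (J : Set I) w := by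
  classical
  induction w using FreeGroup.induction_on with
  | C1 => exact ⟨∅, fun φ ψ _ => by simp⟩
  | of i => exact ⟨{i}, fun φ ψ h => by simpa using h i (by simp)⟩
  | inv_of i hi =>
    obtain ⟨J, h⟩ := hi
    exact ⟨J, h.inv⟩
  | mul u v hu hv =>
    obtain ⟨J, h⟩ := hu
    obtain ⟨K, h'⟩ := hv
    refine ⟨J ∪ K, (h.mono ?_).mul (h'.mono ?_)⟩
    · intro i hi
      simp only [Finset.coe_union]
      exact Or.inl hi
    · intro i hi
      simp only [Finset.coe_union]
      exact Or.inr hi

/-- Evaluation of a word in one of its variables. -/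
theorem update_memI {I : Type v} [DecidableEq I] (w : FreeGroup I) (φ : I → G) (j : I) :
    (fun x => FreeGroup.lift (Function.update φ j x) w) ∈ W G := by
  induction w using FreeGroup.induction_on with
  | C1 => simpa using const_mem (1 : G)
  | of i =>
    by_cases h : i = j
    · subst h; simpa using id_mem
    · simpa [Function.update_of_ne h] using const_mem (φ i)
  | inv_of i hi => simpa using inv_mem' hi
  | mul u v hu hv => simpa using mul_mem' hu hv

/-- A finite set of words, one of which is trivial at every point, contains a law. -/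
theorem irr_words (hC : Cof G) [Infinite G] {I : Type v} (S : Finset (FreeGroup I))
    (h : ∀ φ : I → G, ∃ w ∈ S, FreeGroup.lift φ w = 1) :
    ∃ w ∈ S, ∀ φ : I → G, FreeGroup.lift φ w = 1 := by
  classical
  have key : ∀ s : Finset I, ∀ ψ : I → G,
      (∀ φ : I → G, (∀ i, i ∉ s → φ i = ψ i) → ∃ w ∈ S, FreeGroup.lift φ w = 1) →
      ∃ w ∈ S, ∀ φ : I → G, (∀ i, i ∉ s → φ i = ψ i) → FreeGroup.lift φ w = 1 := by
    intro s
    induction s using Finset.induction_on with
    | empty =>
      intro ψ h1
      obtain ⟨w, hw, hw1⟩ := h1 ψ fun i _ => rfl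
      refine ⟨w, hw, fun φ hφ => ?_⟩
      have : φ = ψ := funext fun i => hφ i (by simp)
      rw [this]
      exact hw1
    | insert j s hj ih =>
      intro ψ h1
      have h2 : ∀ y : G, ∃ w : S, ∀ φ : I → G,
          (∀ i, i ∉ s → φ i = Function.update ψ j y i) → FreeGroup.lift φ w.1 = 1 := by
        intro y
        obtain ⟨w, hw, hw1⟩ := ih (Function.update ψ j y) (fun φ hφ => h1 φ fun i hi => by
          rw [Finset.mem_insert, not_or] at hi
          rw [hφ i hi.2, Function.update_of_ne hi.1])
        exact ⟨⟨w, hw⟩, hw1⟩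
      choose u hu using h2
      obtain ⟨w, hw⟩ := Finite.exists_infinite_fiber u
      refine ⟨w.1, w.2, fun φ hφ => ?_⟩
      have h3 := eq_one_of_infinite hC (update_memI w.1 φ j)
        (Set.infinite_coe_iff.1 hw) (fun y hy => ?_) (φ j)
      · simpa using h3
      · have hy' : u y = w := hy
        rw [← hy']
        apply hu
        intro i hi
        by_cases hij : i = j
        · subst hij; simp
        · rw [Function.update_of_ne hij, Function.update_of_ne hij]
          exact hφ i (by simp [hij, hi])
  have h4 : ∀ w : FreeGroup I, ∃ J : Finset I, Dep G (J : Set I) w := fun w => exists_depF w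
  choose J hJ using h4
  obtain ⟨w, hw, hw1⟩ := key (S.biUnion J) 1 (fun φ _ => h φ)
  refine ⟨w, hw, fun φ => ?_⟩
  rw [hJ w φ (fun i => if i ∈ S.biUnion J then φ i else 1) (fun i hi => ?_)]
  · apply hw1
    intro i hi
    simp only [hi, if_false]
    rfl
  · have : i ∈ S.biUnion J := Finset.mem_biUnion.2 ⟨w, hw, hi⟩
    simp only [this, if_true]

/-- the same for elements of the relatively free group -/
theorem irr_rf (hC : Cof G) [Infinite G] {I : Type v} (R : Finset (RF G I))
    (h : ∀ φ : I → G, ∃ r ∈ R, th φ r = 1) : (1 : RF G I) ∈ R := by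
  classical
  have hout : ∀ c : RF G I, (QuotientGroup.mk (Quotient.out c : FreeGroup I) : RF G I) = c :=
    fun c => Quotient.out_eq' c
  obtain ⟨w, hw, hw1⟩ := irr_words hC (R.image fun r => (Quotient.out r : FreeGroup I))
    (fun φ => by
      obtain ⟨r, hr, hr1⟩ := h φ
      refine ⟨Quotient.out r, Finset.mem_image_of_mem _ hr, ?_⟩
      rw [← th_mk, hout]
      exact hr1)
  obtain ⟨r, hr, rfl⟩ := Finset.mem_image.1 hw
  have h1 : r = (1 : RF G I) := by
    rw [← hout r]
    exact (QuotientGroup.eq_one_iff _).2 ((mem_laws _).2 hw1)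
  rw [← h1]
  exact hr

theorem rf_ucof {b : List ℤ → ℕ} (hb : UCof G b) [Infinite G] (I : Type v) :
    UCof (RF G I) b := by
  classical
  intro l
  by_contra hcon
  push Not at hcon
  obtain ⟨h1, h2⟩ := hcon
  obtain ⟨z, hz⟩ : ∃ z : RF G I, (l.map (fun p => p.1 * z ^ p.2)).prod ≠ 1 := by
    by_contra h
    push Not at h
    exact h2 (Set.eq_univ_of_forall h)
  obtain ⟨t, ht, htc⟩ := Set.exists_subset_encard_eq (Order.add_one_le_of_lt h1)
  have htf : t.Finite := by
    apply Set.finite_of_encard_eq_coe (k := b (l.map Prod.snd) + 1)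
    rw [htc]
    push_cast
    rfl
  let T : Finset (RF G I) := htf.toFinset
  have hT : ∀ a, a ∈ T ↔ a ∈ t := fun a => by simp [T]
  let R : Finset (RF G I) := insert (l.map (fun p => p.1 * z ^ p.2)).prod
    (((T ×ˢ T).filter fun q => q.1 ≠ q.2).image fun q => q.1 * q.2⁻¹)
  have hR : (1 : RF G I) ∈ R := by
    apply irr_rf hb.cof
    intro φ
    by_cases hinj : Set.InjOn (th φ) t
    · refine ⟨_, Finset.mem_insert_self _ _, ?_⟩
      rw [th_list]
      have hsnd : (l.map (fun p => (th φ p.1, p.2))).map Prod.snd = l.map Prod.snd := by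
        rw [List.map_map]
        rfl
      rcases hb (l.map (fun p => (th φ p.1, p.2))) with h3 | h3
      · exfalso
        rw [hsnd] at h3
        have h4 : (th φ '' t).encard ≤ b (l.map Prod.snd) := by
          refine le_trans (Set.encard_le_encard ?_) h3
          rintro _ ⟨a, ha, rfl⟩
          show _ = 1
          rw [← th_list]
          have h5 : (l.map (fun p => p.1 * a ^ p.2)).prod = 1 := ht ha
          rw [h5, map_one]
        rw [hinj.encard_image, htc] at h4
        exact absurd h4 (not_le_of_gt (by
          have : ((b (l.map Prod.snd) : ℕ) : ℕ∞) < ((b (l.map Prod.snd) + 1 : ℕ) : ℕ∞) := by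
            exact_mod_cast Nat.lt_succ_self _
          simpa using this))
      · have h4 : th φ z ∈ {a : G | ((l.map (fun p => (th φ p.1, p.2))).map
            (fun p => p.1 * a ^ p.2)).prod = 1} := by
          rw [h3]
          trivial
        exact h4
    · rw [Set.InjOn] at hinj
      push Not at hinj
      obtain ⟨a, ha, a', ha', h3, h4⟩ := hinj
      refine ⟨a * a'⁻¹, Finset.mem_insert_of_mem (Finset.mem_image.2 ⟨(a, a'), ?_, rfl⟩), ?_⟩
      · rw [Finset.mem_filter, Finset.mem_product, hT, hT]
        exact ⟨⟨ha, ha'⟩, h4⟩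
      · rw [map_mul, map_inv, h3, mul_inv_cancel]
  rcases Finset.mem_insert.1 hR with h3 | h3
  · exact hz h3.symm
  · obtain ⟨q, hq, hq1⟩ := Finset.mem_image.1 h3
    exact (Finset.mem_filter.1 hq).2 (mul_inv_eq_one.1 hq1)

end Pool.Agent.Lib.MP_762844_al
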