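import Pool.Agent.Lib.MP_762844_al.Unc
import Pool.Agent.Lib.MP_762844_al.Uni
import Pool.Agent.Lib.MP_762844_al.EvDef

/-!
Roots of equations in relatively free groups.
-/

set_option autoImplicit false

namespace Pool.Agent.Lib.MP_762844_al

universe u

variable {G : Type u} [Group G]

theorem lift_lift {I J : Type} (ψ : J → G) (s : I → FreeGroup J) (f : FreeGroup I) :
    FreeGroup.lift ψ (FreeGroup.lift s f) = FreeGroup.lift (fun i => FreeGroup.lift ψ (s i)) f := by
  have h2 : (FreeGroup.lift ψ).comp (FreeGroup.lift s) =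
      FreeGroup.lift (fun i => FreeGroup.lift ψ (s i)) := by
    ext i
    simp
  exact DFunLike.congr_fun h2 f

theorem law_fin {x : ℕ → G} (hx : RelFree x) {m : ℕ} (w : FreeGroup (Fin m))
    (hw : FreeGroup.lift (fun i : Fin m => x i) w = 1) (φ : Fin m → G) :
    FreeGroup.lift φ w = 1 := by
  have h1 := hx (FreeGroup.lift (fun i : Fin m => FreeGroup.of (i : ℕ)) w)
    (by rw [lift_lift]; simpa using hw) (fun k => if h : k < m then φ ⟨k, h⟩ else 1)
  rw [lift_lift] at h1
  simpa using h1

theorem ev_self (x : ℕ → G) (n : ℕ) : ev x n (x n) = fun i : Fin (n + 1) => x i := by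
  funext i
  unfold ev
  by_cases h : (i : ℕ) < n
  · simp [h]
  · have : (i : ℕ) = n := by omega
    simp [this]

theorem ev_mem (x : ℕ → G) (n : ℕ) (f : FreeGroup (Fin (n + 1))) :
    (fun y => FreeGroup.lift (ev x n y) f) ∈ W G := by
  classical
  have h1 := update_memI f (fun i : Fin (n + 1) => x i) (Fin.last n)
  have h2 : (fun y => FreeGroup.lift (ev x n y) f) =
      fun y => FreeGroup.lift (Function.update (fun i : Fin (n + 1) => x i) (Fin.last n) y) f := by
    funext y
    congr 2
    funext i
    unfold ev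
    by_cases h : (i : ℕ) < n
    · rw [Function.update_of_ne]
      · simp [h]
      · rintro rfl
        simp at h
    · have : i = Fin.last n := by
        apply Fin.ext
        simp only [Fin.val_last]
        omega
      subst this
      simp
  rw [h2]
  exact h1

theorem exists_word (x : ℕ → G) (m : ℕ) {e : G} (he : e ∈ Subgroup.closure (x '' Set.Iio m)) :
    ∃ v : FreeGroup (Fin m), FreeGroup.lift (fun i : Fin m => x i) v = e := by
  have h1 : Subgroup.closure (x '' Set.Iio m) ≤
      (FreeGroup.lift (fun i : Fin m => x i)).range := by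
    rw [Subgroup.closure_le]
    rintro _ ⟨i, hi, rfl⟩
    exact ⟨FreeGroup.of ⟨i, hi⟩, by simp⟩
  exact h1 he

theorem mem_closure_ev (x : ℕ → G) (n : ℕ) (z : G) (v : FreeGroup (Fin (n + 1))) :
    FreeGroup.lift (ev x n z) v ∈ Subgroup.closure (x '' Set.Iio n ∪ {z}) := by
  induction v using FreeGroup.induction_on with
  | C1 => simpa using Subgroup.one_mem _
  | of i =>
    rw [FreeGroup.lift_apply_of]
    unfold ev
    by_cases h : (i : ℕ) < n
    · simp only [h, if_true]
      exact Subgroup.subset_closure (Or.inl ⟨i, h, rfl⟩)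
    · simp only [h, if_false]
      exact Subgroup.subset_closure (Or.inr rfl)
  | inv_of i hi => rw [map_inv]; exact Subgroup.inv_mem _ hi
  | mul u v hu hv => rw [map_mul]; exact Subgroup.mul_mem _ hu hv

theorem roots (hC : Cof G) {x : ℕ → G} (hx : RelFree x)
    (hgen : Subgroup.closure (Set.range x) = ⊤) (n : ℕ) (f : FreeGroup (Fin (n + 1)))
    (hf : ∃ y : G, FreeGroup.lift (ev x n y) f ≠ FreeGroup.lift (ev x n (x n)) f) (z : G)
    (hz : FreeGroup.lift (ev x n z) f = FreeGroup.lift (ev x n (x n)) f) :
    Subgroup.closure (x '' Set.Iio n ∪ {z}) = Subgroup.closure (x '' Set.Iio (n + 1)) ∧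
      ∀ w : FreeGroup (Fin (n + 1)), FreeGroup.lift (ev x n z) w = 1 →
        ∀ φ : Fin (n + 1) → G, FreeGroup.lift φ w = 1 := by
  obtain ⟨y₀, hy₀⟩ := hf
  -- `z` is outside the subgroup of the first letters
  have hzn : z ∉ Subgroup.closure (x '' Set.Iio n) := by
    intro hmem
    obtain ⟨v, hv⟩ := exists_word x n hmem
    apply hy₀
    let s : Fin (n + 1) → FreeGroup (Fin (n + 1)) := fun i =>
      if (i : ℕ) < n then FreeGroup.of i else FreeGroup.lift (fun j : Fin n =>
        FreeGroup.of (Fin.castSucc j)) v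
    have hs : ∀ y : G, FreeGroup.lift (ev x n y) (FreeGroup.lift s f) =
        FreeGroup.lift (ev x n z) f := by
      intro y
      rw [lift_lift]
      congr 2
      funext i
      by_cases h : (i : ℕ) < n
      · simp [s, h, ev]
      · simp only [s, h, if_false]
        rw [lift_lift]
        have h3 : (fun j : Fin n => FreeGroup.lift (ev x n y) (FreeGroup.of (Fin.castSucc j))) =
            fun j : Fin n => x j := by
          funext j
          rw [FreeGroup.lift_apply_of]
          simp [ev]
        rw [h3, hv]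
        simp [ev, h]
    have h1 := law_fin hx (FreeGroup.lift s f * f⁻¹) (by
      rw [← ev_self, map_mul, map_inv, hs, hz, mul_inv_cancel]) (ev x n y₀)
    rw [map_mul, map_inv, hs, mul_inv_eq_one] at h1
    rw [← h1, hz]
  have hfree : ∀ w : FreeGroup (Fin (n + 1)), FreeGroup.lift (ev x n z) w = 1 →
      ∀ φ : Fin (n + 1) → G, FreeGroup.lift φ w = 1 := fun w hw φ =>
    over_part hC hx hgen n z hzn w hw φ
  refine ⟨?_, hfree⟩
  let E : Set G := {y | FreeGroup.lift (ev x n y) f = FreeGroup.lift (ev x n (x n)) f}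
  have hEfin : E.Finite := by
    by_contra hinf
    exact hy₀ (eq_of_infinite hC (ev_mem x n f) (const_mem _) hinf (fun y hy => hy) y₀)
  have hE : ∀ e ∈ E, e ∈ Subgroup.closure (x '' Set.Iio (n + 1)) := by
    intro e he
    by_contra hcon
    apply hy₀
    let s : Fin (n + 1) → FreeGroup (Fin (n + 1 + 1)) := fun i =>
      if (i : ℕ) < n then FreeGroup.of (Fin.castSucc i) else FreeGroup.of (Fin.last (n + 1))
    let t : Fin (n + 1) → FreeGroup (Fin (n + 1 + 1)) := fun i => FreeGroup.of (Fin.castSucc i)
    have hs : ∀ y : G, FreeGroup.lift (ev x (n + 1) y) (FreeGroup.lift s f) =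
        FreeGroup.lift (ev x n y) f := by
      intro y
      rw [lift_lift]
      congr 2
      funext i
      by_cases h : (i : ℕ) < n
      · have h' : (i : ℕ) ≤ n := by omega
        simp [s, h, ev, h']
      · simp [s, h, ev]
    have ht : ∀ y : G, FreeGroup.lift (ev x (n + 1) y) (FreeGroup.lift t f) =
        FreeGroup.lift (ev x n (x n)) f := by
      intro y
      rw [lift_lift, ev_self]
      congr 2
      funext i
      have h' : (i : ℕ) ≤ n := by omega
      simp [t, ev, h']
    have h1 := over_part hC hx hgen (n + 1) e hcon (FreeGroup.lift s f * (FreeGroup.lift t f)⁻¹)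
      (by
        show FreeGroup.lift (ev x (n + 1) e) _ = 1
        rw [map_mul, map_inv, hs, ht]
        have he' : FreeGroup.lift (ev x n e) f = FreeGroup.lift (ev x n (x n)) f := he
        rw [he', mul_inv_cancel]) (ev x (n + 1) y₀)
    rw [map_mul, map_inv, hs, ht, mul_inv_eq_one] at h1
    exact h1
  have hV : ∀ e : E, ∃ v : FreeGroup (Fin (n + 1)),
      FreeGroup.lift (fun i : Fin (n + 1) => x i) v = e.1 := fun e => exists_word x (n + 1) (hE e.1 e.2)
  choose V hV using hV
  have hmem : ∀ e : E, FreeGroup.lift (ev x n z) (V e) ∈ E := by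
    intro e
    let s : Fin (n + 1) → FreeGroup (Fin (n + 1)) := fun i =>
      if (i : ℕ) < n then FreeGroup.of i else V e
    have hs : ∀ y : G, FreeGroup.lift (ev x n y) (FreeGroup.lift s f) =
        FreeGroup.lift (ev x n (FreeGroup.lift (ev x n y) (V e))) f := by
      intro y
      rw [lift_lift]
      congr 2
      funext i
      by_cases h : (i : ℕ) < n
      · simp [s, h, ev]
      · simp [s, h, ev]
    have h1 := law_fin hx (FreeGroup.lift s f * f⁻¹) (by
      rw [← ev_self, map_mul, map_inv, hs, ev_self x n, hV, ← ev_self x n]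
      have he : FreeGroup.lift (ev x n e.1) f = FreeGroup.lift (ev x n (x n)) f := e.2
      rw [he, mul_inv_cancel]) (ev x n z)
    rw [map_mul, map_inv, hs, mul_inv_eq_one, hz] at h1
    exact h1
  let Y : E → E := fun e => ⟨FreeGroup.lift (ev x n z) (V e), hmem e⟩
  have hY : Function.Injective Y := by
    intro e e' hee
    have h1 : FreeGroup.lift (ev x n z) (V e) = FreeGroup.lift (ev x n z) (V e') :=
      congrArg Subtype.val hee
    have h2 := hfree (V e * (V e')⁻¹) (by rw [map_mul, map_inv, h1, mul_inv_cancel])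
      (fun i : Fin (n + 1) => x i)
    rw [map_mul, map_inv, hV, hV, mul_inv_eq_one] at h2
    exact Subtype.ext h2
  have hEf : Finite E := hEfin.to_subtype
  obtain ⟨e, he⟩ := (Finite.injective_iff_surjective.1 hY) ⟨x n, rfl⟩
  have hxn : x n ∈ Subgroup.closure (x '' Set.Iio n ∪ {z}) := by
    have h1 : FreeGroup.lift (ev x n z) (V e) = x n := congrArg Subtype.val he
    rw [← h1]
    exact mem_closure_ev x n z _
  apply le_antisymm
  · rw [Subgroup.closure_le]
    rintro y (⟨i, hi, rfl⟩ | hy)
    · exact Subgroup.subset_closure ⟨i, lt_trans hi (Nat.lt_succ_self n), rfl⟩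
    · rw [Set.mem_singleton_iff] at hy
      rw [hy]
      exact hE z hz
  · rw [Subgroup.closure_le]
    rintro _ ⟨i, hi, rfl⟩
    rcases Nat.lt_succ_iff_lt_or_eq.1 hi with h | rfl
    · exact Subgroup.subset_closure (Or.inl ⟨i, h, rfl⟩)
    · exact hxn

end Pool.Agent.Lib.MP_762844_al
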