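import Mathlib

/-!
Relatively free groups.
-/

set_option autoImplicit false

namespace Pool.Agent.Lib.MP_762844_al

universe u v

variable {G : Type u} [Group G]

/-- the laws of `G` in the letters `I`: the words which are trivial under all maps `I → G` -/
def laws (G : Type u) [Group G] (I : Type v) : Subgroup (FreeGroup I) :=
  ⨅ φ : I → G, (FreeGroup.lift φ).ker

theorem mem_laws {I : Type v} (w : FreeGroup I) :
    w ∈ laws G I ↔ ∀ φ : I → G, FreeGroup.lift φ w = 1 := by
  simp [laws, Subgroup.mem_iInf, MonoidHom.mem_ker]

instance laws_normal (I : Type v) : (laws G I).Normal := by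
  refine ⟨fun w hw g => ?_⟩
  rw [mem_laws] at hw ⊢
  intro φ
  rw [map_mul, map_mul, map_inv, hw φ, mul_one, mul_inv_cancel]

/-- the relatively free group of rank `I` of the variety generated by `G` -/
abbrev RF (G : Type u) [Group G] (I : Type v) : Type v := FreeGroup I ⧸ laws G I

end Pool.Agent.Lib.MP_762844_al
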