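import Mathlib

/-!
Relatively free sequences and transcendental elements.
-/

set_option autoImplicit false

namespace Pool.Agent.Lib.MP_762844_al

/-- Every relation of the sequence `x` of elements of `G` is a law of `G`. -/
def RelFree {G : Type*} [Group G] (x : ℕ → G) : Prop :=
  ∀ w : FreeGroup ℕ, FreeGroup.lift x w = 1 → ∀ φ : ℕ → G, FreeGroup.lift φ w = 1

/-- `x` is transcendental over `B`: every one-variable equation with constants in `B` which holds at `x` holds
at all elements of `G`. -/
def Transc {G : Type*} [Group G] (B : Subgroup G) (x : G) : Prop :=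
  ∀ l : List (G × ℤ), (∀ p ∈ l, p.1 ∈ B) → (l.map (fun p => p.1 * x ^ p.2)).prod = 1 →
    ∀ a : G, (l.map (fun p => p.1 * a ^ p.2)).prod = 1

/-- There is an infinite subset `A` such that for every finite subset `S` some element is transcendental
over the subgroup generated by `A` and `S`. -/
def InfTrdeg (G : Type*) [Group G] : Prop :=
  ∃ A : Set G, A.Infinite ∧ ∀ S : Set G, S.Finite → ∃ x : G, Transc (Subgroup.closure (A ∪ S)) x

end Pool.Agent.Lib.MP_762844_al
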