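import Pool.Agent.Lib.MP_762844_al.Free
import Pool.Agent.Lib.MP_762844_al.RelFree
import Pool.Agent.Lib.MP_762844_al.LawsDef

/-!
Relatively free groups of arbitrary infinite rank with cofinite Zariski topology.
-/

set_option autoImplicit false

namespace Pool.Agent.Lib.MP_762844_al

universe u v

variable {G : Type u} [Group G]

/-- the value of the word depends only on the letters in `J` -/
def Dep (G : Type u) [Group G] {I : Type v} (J : Set I) (w : FreeGroup I) : Prop :=
  ∀ φ ψ : I → G, (∀ i ∈ J, φ i = ψ i) → FreeGroup.lift φ w = FreeGroup.lift ψ w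

theorem Dep.mono {I : Type v} {J K : Set I} {w : FreeGroup I} (h : Dep G J w) (hJK : J ⊆ K) :
    Dep G K w := fun φ ψ h1 => h φ ψ fun i hi => h1 i (hJK hi)

theorem Dep.mul {I : Type v} {J : Set I} {w v : FreeGroup I} (h : Dep G J w) (h' : Dep G J v) :
    Dep G J (w * v) := fun φ ψ h1 => by rw [map_mul, map_mul, h φ ψ h1, h' φ ψ h1]

theorem Dep.inv {I : Type v} {J : Set I} {w : FreeGroup I} (h : Dep G J w) :
    Dep G J w⁻¹ := fun φ ψ h1 => by rw [map_inv, map_inv, h φ ψ h1]

theorem Dep.zpow {I : Type v} {J : Set I} {w : FreeGroup I} (h : Dep G J w) (n : ℤ) :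
    Dep G J (w ^ n) := fun φ ψ h1 => by rw [map_zpow, map_zpow, h φ ψ h1]

theorem exists_dep {I : Type v} (w : FreeGroup I) : ∃ J : Set I, J.Countable ∧ Dep G J w := by
  induction w using FreeGroup.induction_on with
  | C1 => exact ⟨∅, Set.countable_empty, fun φ ψ _ => by simp⟩
  | of i => exact ⟨{i}, Set.countable_singleton i, fun φ ψ h => by simpa using h i rfl⟩
  | inv_of i hi =>
    obtain ⟨J, hJ, h⟩ := hi
    exact ⟨J, hJ, h.inv⟩
  | mul u v hu hv =>
    obtain ⟨J, hJ, h⟩ := hu
    obtain ⟨K, hK, h'⟩ := hv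
    exact ⟨J ∪ K, hJ.union hK, (h.mono Set.subset_union_left).mul (h'.mono Set.subset_union_right)⟩

/-- the homomorphism of the relatively free group given by a map of the letters -/
noncomputable def th {I : Type v} (φ : I → G) : RF G I →* G :=
  QuotientGroup.lift (laws G I) (FreeGroup.lift φ) fun w hw => (mem_laws w).1 hw φ

theorem th_mk {I : Type v} (φ : I → G) (w : FreeGroup I) :
    th φ (QuotientGroup.mk w : RF G I) = FreeGroup.lift φ w := rfl

theorem inj {x : ℕ → G} (hx : RelFree x) {I : Type v} {J : Set I} (τ : I → ℕ)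
    (hτ : Set.InjOn τ J) {w : FreeGroup I} (hw : Dep G J w)
    (h : FreeGroup.lift (fun i => x (τ i)) w = 1) : w ∈ laws G I := by
  rw [mem_laws]
  intro φ
  have hmap : ∀ ψ : ℕ → G, FreeGroup.lift ψ (FreeGroup.map τ w) =
      FreeGroup.lift (fun i => ψ (τ i)) w := by
    intro ψ
    have h2 : (FreeGroup.lift ψ).comp (FreeGroup.map τ) = FreeGroup.lift (fun i => ψ (τ i)) := by
      ext i
      simp
    exact DFunLike.congr_fun h2 w
  have h1 := hx (FreeGroup.map τ w) (by rw [hmap]; exact h)
  classical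
  let ψ : ℕ → G := fun m => if hm : ∃ i ∈ J, τ i = m then φ hm.choose else 1
  have h3 := h1 ψ
  rw [hmap] at h3
  rw [← h3]
  apply hw
  intro i hi
  have hm : ∃ i' ∈ J, τ i' = τ i := ⟨i, hi, rfl⟩
  have h4 : hm.choose = i := hτ hm.choose_spec.1 hi hm.choose_spec.2
  show φ i = ψ (τ i)
  simp only [ψ, hm, dif_pos, h4]

theorem th_list {I : Type v} (φ : I → G) (l : List (RF G I × ℤ)) (a : RF G I) :
    th φ (l.map (fun p => p.1 * a ^ p.2)).prod =
      ((l.map (fun p => (th φ p.1, p.2))).map (fun p => p.1 * (th φ a) ^ p.2)).prod := by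
  induction l with
  | nil => simp
  | cons q l ih =>
    simp only [List.map_cons, List.prod_cons, map_mul, map_zpow]
    rw [ih]

/-- all relatively free groups of infinite rank have cofinite Zariski topology if one does -/
theorem rf_cof (hC : Cof G) {x : ℕ → G} (hx : RelFree x) (I : Type v) : Cof (RF G I) := by
  intro l
  by_contra hcon
  push Not at hcon
  obtain ⟨hinf, huniv⟩ := hcon
  have hinf : {a : RF G I | (l.map (fun p => p.1 * a ^ p.2)).prod = 1}.Infinite := hinf
  obtain ⟨b, hb⟩ : ∃ b : RF G I, (l.map (fun p => p.1 * b ^ p.2)).prod ≠ 1 := by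
    by_contra h
    push Not at h
    exact huniv (Set.eq_univ_of_forall h)
  let a : ℕ → RF G I := fun n => (hinf.natEmbedding _ n : RF G I)
  have ha : ∀ n, (l.map (fun p => p.1 * (a n) ^ p.2)).prod = 1 := fun n =>
    (hinf.natEmbedding _ n).2
  have hainj : Function.Injective a := fun m n h =>
    (hinf.natEmbedding _).injective (Subtype.ext h)
  have hS : ∀ c : RF G I, ∃ J : Set I, J.Countable ∧ Dep G J (Quotient.out c : FreeGroup I) :=
    fun c => exists_dep _
  choose S hSc hSd using hS
  let J : Set I := (⋃ q ∈ {q | q ∈ l}, S q.1) ∪ (⋃ n, S (a n)) ∪ S b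
  have hJ : J.Countable := by
    refine ((Set.Countable.biUnion ?_ fun q _ => hSc _).union
      (Set.countable_iUnion fun n => hSc _)).union (hSc _)
    exact (List.finite_toSet l).countable
  have hJl : ∀ q ∈ l, Dep G J (Quotient.out q.1 : FreeGroup I) := fun q hq =>
    (hSd q.1).mono fun i hi => Or.inl (Or.inl (Set.mem_biUnion (show q ∈ {q | q ∈ l} from hq) hi))
  have hJa : ∀ n, Dep G J (Quotient.out (a n) : FreeGroup I) := fun n =>
    (hSd (a n)).mono fun i hi => Or.inl (Or.inr (Set.mem_iUnion.2 ⟨n, hi⟩))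
  have hJb : Dep G J (Quotient.out b : FreeGroup I) := (hSd b).mono fun i hi => Or.inr hi
  obtain ⟨τ, hτ⟩ : ∃ τ : I → ℕ, Set.InjOn τ J := Set.countable_iff_exists_injOn.1 hJ
  have hout : ∀ c : RF G I, (QuotientGroup.mk (Quotient.out c : FreeGroup I) : RF G I) = c :=
    fun c => Quotient.out_eq' c
  let Θ := th (G := G) (fun i => x (τ i))
  -- injectivity on the elements which depend only on `J`
  have key : ∀ w : FreeGroup I, Dep G J w → Θ (QuotientGroup.mk w : RF G I) = 1 →
      (QuotientGroup.mk w : RF G I) = 1 := by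
    intro w hw h1
    exact (QuotientGroup.eq_one_iff w).2 (inj hx τ hτ hw h1)
  have hΘinj : Function.Injective fun n => Θ (a n) := by
    intro m n hmn
    apply hainj
    have h1 := key (Quotient.out (a m) * (Quotient.out (a n))⁻¹) ((hJa m).mul (hJa n).inv) (by
      rw [QuotientGroup.mk_mul, QuotientGroup.mk_inv, hout, hout, map_mul, map_inv]
      have : Θ (a m) = Θ (a n) := hmn
      rw [this, mul_inv_cancel])
    rw [QuotientGroup.mk_mul, QuotientGroup.mk_inv, hout, hout, mul_inv_eq_one] at h1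
    exact h1
  rcases hC (l.map (fun p => (Θ p.1, p.2))) with h | h
  · refine (Set.infinite_range_of_injective hΘinj) (h.subset ?_)
    rintro _ ⟨n, rfl⟩
    show _ = 1
    rw [← th_list, ha, map_one]
  · apply hb
    have h1 : Θ b ∈ {y : G | ((l.map (fun p => (Θ p.1, p.2))).map
        (fun p => p.1 * y ^ p.2)).prod = 1} := by
      rw [h]
      trivial
    have h2 : Θ (l.map (fun p => p.1 * b ^ p.2)).prod = 1 := by
      rw [th_list]
      exact h1
    have h3 : ∀ l' : List (RF G I × ℤ), (∀ q ∈ l', Dep G J (Quotient.out q.1 : FreeGroup I)) →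
        ∃ w : FreeGroup I, Dep G J w ∧
          (QuotientGroup.mk w : RF G I) = (l'.map (fun p => p.1 * b ^ p.2)).prod := by
      intro l'
      induction l' with
      | nil => exact fun _ => ⟨1, fun φ ψ _ => by simp, by simp⟩
      | cons q l' ih =>
        intro hq
        obtain ⟨w, hw, hw'⟩ := ih fun q' hq' => hq q' (List.mem_cons_of_mem _ hq')
        refine ⟨Quotient.out q.1 * (Quotient.out b) ^ q.2 * w,
          ((hq q List.mem_cons_self).mul (hJb.zpow _)).mul hw, ?_⟩
        rw [QuotientGroup.mk_mul, QuotientGroup.mk_mul, QuotientGroup.mk_zpow, hout, hout, hw']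
        simp
    obtain ⟨w, hw, hw'⟩ := h3 l hJl
    rw [← hw']
    apply key w hw
    rw [hw']
    exact h2

end Pool.Agent.Lib.MP_762844_al
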