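import Pool.Agent.Lib.MP_762844_al.Unc

/-!
Transcendental elements over the subgroups generated by an infinite set and finitely many elements.
-/

set_option autoImplicit false

namespace Pool.Agent.Lib.MP_762844_al

universe u

variable {G : Type u} [Group G]

theorem list_mem_WB {B : Subgroup G} (l : List (G × ℤ)) (hl : ∀ p ∈ l, p.1 ∈ B) :
    (fun a : G => (l.map (fun p => p.1 * a ^ p.2)).prod) ∈ WB B := by
  induction l with
  | nil =>
    have h0 : (fun a : G => (([] : List (G × ℤ)).map (fun p => p.1 * a ^ p.2)).prod) = 1 := by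
      funext a
      simp
    rw [h0]
    exact (WB B).one_mem
  | cons q l ih =>
    have h0 : (fun a : G => ((q :: l).map (fun p => p.1 * a ^ p.2)).prod) =
        (fun _ : G => q.1) * (fun a : G => a) ^ q.2 *
          fun a : G => (l.map (fun p => p.1 * a ^ p.2)).prod := by
      funext a
      simp [Pi.mul_apply, Pi.pow_apply]
    rw [h0]
    exact (WB B).mul_mem ((WB B).mul_mem (wb_const (hl q List.mem_cons_self))
      ((WB B).zpow_mem (wb_id B) _)) (ih fun p hp => hl p (List.mem_cons_of_mem _ hp))

section chain

variable (A : Set G) (h : ∀ S : Set G, S.Finite → ∃ x : G,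
  ∀ f ∈ WB (Subgroup.closure (A ∪ S)), f x = 1 → ∀ a, f a = 1)

/-- the transcendental element -/
noncomputable def pickF (S : {S : Set G // S.Finite}) : G := (h S.1 S.2).choose

theorem pickF_spec (S : {S : Set G // S.Finite}) :
    ∀ f ∈ WB (Subgroup.closure (A ∪ S.1)), f (pickF A h S) = 1 → ∀ a, f a = 1 :=
  (h S.1 S.2).choose_spec

/-- the chain of finite sets -/
noncomputable def chainF : ℕ → {S : Set G // S.Finite}
  | 0 => ⟨∅, Set.finite_empty⟩
  | n + 1 => ⟨insert (pickF A h (chainF n)) (chainF n).1, (chainF n).2.insert _⟩

theorem chainF_mono {m n : ℕ} (hmn : m ≤ n) : (chainF A h m).1 ⊆ (chainF A h n).1 := by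
  induction n, hmn using Nat.le_induction with
  | base => exact subset_rfl
  | succ n _ ih => exact ih.trans (Set.subset_insert _ _)

/-- the transcendental sequence -/
noncomputable def gseqF (n : ℕ) : G := pickF A h (chainF A h n)

theorem gseqF_mem {i n : ℕ} (hin : i < n) : gseqF A h i ∈ (chainF A h n).1 :=
  chainF_mono A h (Nat.succ_le_of_lt hin) (Set.mem_insert _ _)

theorem gseqF_law (hC : Cof G) (hAi : A.Infinite) (w : FreeGroup ℕ)
    (hw : FreeGroup.lift (gseqF A h) w = 1) (φ : ℕ → G) : FreeGroup.lift φ w = 1 := by
  refine law_nat hC hAi w ?_ φ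
  obtain ⟨N, hN⟩ := supp (G := G) w
  have key : ∀ k j : ℕ, j + k = N → ∀ a : ℕ → G, (∀ i, a i ∈ A) →
      FreeGroup.lift (fun i => if i < j then gseqF A h i else a i) w = 1 := by
    intro k
    induction k with
    | zero =>
      intro j hj a _
      rw [hN _ (gseqF A h) fun i hi => by
        have : i < j := by omega
        simp [this]]
      exact hw
    | succ k ih =>
      intro j hj a ha
      have h1 := pickF_spec A h (chainF A h j)
        (fun y => FreeGroup.lift (Function.update
          (fun i => if i < j then gseqF A h i else a i) j y) w)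
        (update_memB w _ j (fun i hi => ?_)) ?_ (a j)
      · have h2 : Function.update (fun i => if i < j then gseqF A h i else a i) j (a j) =
            fun i => if i < j then gseqF A h i else a i := by
          funext i
          by_cases hi : i = j
          · subst hi; simp
          · rw [Function.update_of_ne hi]
        simpa only [h2] using h1
      · by_cases hij : i < j
        · simp only [hij, if_true]
          exact Subgroup.subset_closure (Or.inr (gseqF_mem A h hij))
        · simp only [hij, if_false]
          exact Subgroup.subset_closure (Or.inl (ha i))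
      · have h3 : Function.update (fun i => if i < j then gseqF A h i else a i) j
            (pickF A h (chainF A h j)) =
            fun i => if i < j + 1 then gseqF A h i else a i := by
          funext i
          by_cases hi : i = j
          · subst hi; simp [gseqF]
          · rw [Function.update_of_ne hi]
            have : (i < j) ↔ (i < j + 1) := by omega
            simp only [this]
        show FreeGroup.lift _ w = 1
        rw [h3]
        exact ih (j + 1) (by omega) a ha
  intro a ha
  have := key N 0 (by omega) a ha
  simpa using this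

end chain

theorem sub_part (hC : Cof G) (hna : ∃ a b : G, a * b ≠ b * a) {y : ℕ → G} (hy : RelFree y) :
    ∃ (F : Subgroup G) (x : ℕ → F), Cof F ∧ (∃ a b : F, a * b ≠ b * a) ∧ RelFree x ∧
      Subgroup.closure (Set.range x) = ⊤ := by
  let F : Subgroup G := Subgroup.closure (Set.range y)
  let x : ℕ → F := fun n => ⟨y n, Subgroup.subset_closure ⟨n, rfl⟩⟩
  have hcoe : ∀ (φ : ℕ → F) (w : FreeGroup ℕ), ((FreeGroup.lift φ w : F) : G) =
      FreeGroup.lift (fun i => (φ i : G)) w := by
    intro φ w
    have h2 : F.subtype.comp (FreeGroup.lift φ) = FreeGroup.lift (fun i => (φ i : G)) := by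
      ext i
      simp
    exact DFunLike.congr_fun h2 w
  have hx : RelFree x := by
    intro w hw φ
    apply Subtype.ext
    rw [hcoe]
    have h1 : FreeGroup.lift y w = 1 := by
      have h3 := hcoe x w
      rw [hw] at h3
      exact h3.symm
    rw [hy w h1]
    rfl
  refine ⟨F, x, cof_subgroup hC F, ⟨x 0, x 1, ?_⟩, hx, ?_⟩
  · intro h
    have h1 := nonab_of_law hy hna
    apply h1
    exact congrArg Subtype.val h
  · have h1 : Set.range x = ((↑) : F → G) ⁻¹' (Set.range y) := by
      ext z
      constructor
      · rintro ⟨n, rfl⟩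
        exact ⟨n, rfl⟩
      · rintro ⟨n, hn⟩
        exact ⟨n, Subtype.ext hn⟩
    rw [h1]
    exact Subgroup.closure_closure_coe_preimage

theorem trdeg_part (hC : Cof G) (hna : ∃ a b : G, a * b ≠ b * a) (hT : InfTrdeg G) :
    ∃ (F : Subgroup G) (x : ℕ → F), Cof F ∧ (∃ a b : F, a * b ≠ b * a) ∧ RelFree x ∧
      Subgroup.closure (Set.range x) = ⊤ := by
  obtain ⟨A, hA, hS⟩ := hT
  have h : ∀ S : Set G, S.Finite → ∃ x : G,
      ∀ f ∈ WB (Subgroup.closure (A ∪ S)), f x = 1 → ∀ a, f a = 1 := by
    intro S hSf
    obtain ⟨x, hx⟩ := hS S hSf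
    refine ⟨x, fun f hf hfx a => ?_⟩
    obtain ⟨l, hl⟩ := exists_listB hf
    have hl' : ∀ a : G, ((l.map (fun p => ((p.1 : G), p.2))).map
        (fun p => p.1 * a ^ p.2)).prod = f a := by
      intro a
      rw [← hl a, List.map_map]
      rfl
    rw [← hl' a]
    apply hx
    · intro p hp
      obtain ⟨q, -, rfl⟩ := List.mem_map.1 hp
      exact q.1.2
    · rw [hl']
      exact hfx
  exact sub_part hC hna (y := gseqF A h) (fun w hw φ => gseqF_law A h hC hA w hw φ)

theorem trdeg_of_uncountable [Uncountable G] (hC : Cof G) : InfTrdeg G := by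
  refine ⟨Set.range (Infinite.natEmbedding G),
    Set.infinite_range_of_injective (Infinite.natEmbedding G).injective, fun S hS => ?_⟩
  obtain ⟨x, hx⟩ := exists_generic hC ((Set.countable_range (Infinite.natEmbedding G)).union
    hS.countable)
  exact ⟨x, fun l hl h1 a => hx _ (list_mem_WB l hl) h1 a⟩

end Pool.Agent.Lib.MP_762844_al
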