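import Pool.Agent.Lib.MP_762844_al.RF

/-!
The question for uncountable groups and for relatively free groups.
-/

set_option autoImplicit false

namespace Pool.Agent.Lib.MP_762844_al

universe u

open Cardinal

theorem nonab_of_law {G : Type u} [Group G] {x : ℕ → G} (hx : RelFree x)
    (hna : ∃ a b : G, a * b ≠ b * a) : x 0 * x 1 ≠ x 1 * x 0 := by
  intro h
  obtain ⟨a, b, hab⟩ := hna
  apply hab
  have h1 := hx (FreeGroup.of 0 * FreeGroup.of 1 * (FreeGroup.of 0)⁻¹ * (FreeGroup.of 1)⁻¹)
    (by simp [h]) (fun i => if i = 0 then a else b)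
  simp only [map_mul, map_inv, FreeGroup.lift_apply_of] at h1
  simp only [if_true, one_ne_zero, if_false] at h1
  rw [mul_inv_eq_one, mul_inv_eq_iff_eq_mul] at h1
  exact h1

theorem uncountable_part {G : Type u} [Group G] [Uncountable G] (hC : Cof G)
    (hna : ∃ a b : G, a * b ≠ b * a) :
    ∃ (F : Subgroup G) (x : ℕ → F), Cof F ∧ (∃ a b : F, a * b ≠ b * a) ∧ RelFree x ∧
      Subgroup.closure (Set.range x) = ⊤ := by
  have hi : Infinite G := inferInstance
  let A : Set G := Set.range (Infinite.natEmbedding G)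
  have hA : A.Countable := Set.countable_range _
  have hAi : A.Infinite := Set.infinite_range_of_injective (Infinite.natEmbedding G).injective
  let y := gseq hC A hA
  have hy : RelFree y := fun w hw φ => gseq_law hC A hA hAi w hw φ
  let F : Subgroup G := Subgroup.closure (Set.range y)
  let x : ℕ → F := fun n => ⟨y n, Subgroup.subset_closure ⟨n, rfl⟩⟩
  have hcoe : ∀ (φ : ℕ → F) (w : FreeGroup ℕ), ((FreeGroup.lift φ w : F) : G) =
      FreeGroup.lift (fun i => (φ i : G)) w := by
    intro φ w
    have h2 : F.subtype.comp (FreeGroup.lift φ) = FreeGroup.lift (fun i => (φ i : G)) := by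
      ext i
      simp
    exact DFunLike.congr_fun h2 w
  have hx : RelFree x := by
    intro w hw φ
    apply Subtype.ext
    rw [hcoe]
    have h1 : FreeGroup.lift y w = 1 := by
      have h3 := hcoe x w
      rw [hw] at h3
      exact h3.symm
    rw [hy w h1]
    rfl
  refine ⟨F, x, cof_subgroup hC F, ⟨x 0, x 1, ?_⟩, hx, ?_⟩
  · intro h
    have h1 := nonab_of_law hy hna
    apply h1
    exact congrArg Subtype.val h
  · have h1 : Set.range x = ((↑) : F → G) ⁻¹' (Set.range y) := by
      ext z
      constructor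
      · rintro ⟨n, rfl⟩
        exact ⟨n, rfl⟩
      · rintro ⟨n, hn⟩
        exact ⟨n, Subtype.ext hn⟩
    rw [h1]
    exact Subgroup.closure_closure_coe_preimage

theorem over_part {G : Type u} [Group G] (hC : Cof G) {x : ℕ → G} (hx : RelFree x)
    (hgen : Subgroup.closure (Set.range x) = ⊤) (n : ℕ) (z : G)
    (hz : z ∉ Subgroup.closure (x '' Set.Iio n)) (w : FreeGroup (Fin (n + 1)))
    (hw : FreeGroup.lift (fun i : Fin (n + 1) => if (i : ℕ) < n then x i else z) w = 1)
    (φ : Fin (n + 1) → G) : FreeGroup.lift φ w = 1 := by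
  have hmap : ∀ ψ : ℕ → G, FreeGroup.lift ψ (FreeGroup.map (Fin.val : Fin (n + 1) → ℕ) w) =
      FreeGroup.lift (fun i : Fin (n + 1) => ψ i) w := by
    intro ψ
    have h2 : (FreeGroup.lift ψ).comp (FreeGroup.map (Fin.val : Fin (n + 1) → ℕ)) =
        FreeGroup.lift (fun i : Fin (n + 1) => ψ i) := by
      ext i
      simp
    exact DFunLike.congr_fun h2 w
  have h1 := over_free hC x hx n z (by rw [hgen]; trivial) hz
    (FreeGroup.map (Fin.val : Fin (n + 1) → ℕ) w) (by
      have h4 : (fun i : Fin (n + 1) => Function.update x n z (i : ℕ)) =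
          fun i : Fin (n + 1) => if (i : ℕ) < n then x i else z := by
        funext i
        by_cases hi : (i : ℕ) < n
        · rw [Function.update_of_ne (by omega)]
          simp [hi]
        · have h3 : (i : ℕ) = n := by omega
          simp [h3]
      rw [hmap, h4]
      exact hw)
    (fun φ ψ h => by
      rw [hmap, hmap]
      congr 2
      funext i
      exact h i i.2)
    (fun m => if h : m < n + 1 then φ ⟨m, h⟩ else 1)
  rw [hmap] at h1
  have h5 : (fun i : Fin (n + 1) => if h : (i : ℕ) < n + 1 then φ ⟨i, h⟩ else 1) = φ := by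
    funext i
    rw [dif_pos i.2]
  rw [h5] at h1
  exact h1

theorem cardinal_part {G : Type} [Group G] (hC : Cof G) (hna : ∃ a b : G, a * b ≠ b * a)
    {x : ℕ → G} (hx : RelFree x) (κ : Cardinal.{0}) (hκ : ℵ₀ ≤ κ) :
    ∃ (K : Type) (_ : Group K), #K = κ ∧ Cof K ∧ ∃ a b : K, a * b ≠ b * a := by
  classical
  obtain ⟨a, b, hab⟩ := hna
  let I : Type := κ.out
  have hI : #I = κ := Cardinal.mk_out κ
  have hInf : Infinite I := Cardinal.infinite_iff.2 (by rw [hI]; exact hκ)
  have ha : a ≠ 1 := by
    rintro rfl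
    simp at hab
  refine ⟨RF G I, inferInstance, ?_, rf_cof hC hx I, ?_⟩
  · apply le_antisymm
    · have h1 : #(RF G I) ≤ #(FreeGroup I) :=
        Cardinal.mk_le_of_surjective (QuotientGroup.mk_surjective (s := laws G I))
      rw [Cardinal.mk_freeGroup, hI, max_eq_left hκ] at h1
      exact h1
    · rw [← hI]
      refine Cardinal.mk_le_of_injective
        (f := fun i : I => (QuotientGroup.mk (FreeGroup.of i) : RF G I)) ?_
      intro i j hij
      by_contra hne
      have h1 := (QuotientGroup.eq.1 hij)
      rw [mem_laws] at h1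
      have h2 := h1 (fun k => if k = j then a else 1)
      simp only [map_mul, map_inv, FreeGroup.lift_apply_of, if_true, hne, if_false, inv_one,
        one_mul] at h2
      exact ha h2
  · obtain ⟨i, j, hij⟩ := exists_pair_ne I
    refine ⟨QuotientGroup.mk (FreeGroup.of i), QuotientGroup.mk (FreeGroup.of j), fun h => ?_⟩
    rw [← QuotientGroup.mk_mul, ← QuotientGroup.mk_mul] at h
    have h1 := (QuotientGroup.eq.1 h)
    rw [mem_laws] at h1
    have h2 := h1 (fun k => if k = i then b else a)
    simp only [map_mul, map_inv, FreeGroup.lift_apply_of, if_true, Ne.symm hij, if_false] at h2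
    rw [inv_mul_eq_one] at h2
    exact hab h2.symm

end Pool.Agent.Lib.MP_762844_al
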