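import Pool.Agent.Lib.MP_762844_al.Uni

/-!
Uniform counterexamples.
-/

set_option autoImplicit false

namespace Pool.Agent.Lib.MP_762844_al

open Cardinal

theorem rf_card {G : Type} [Group G] {a : G} (ha : a ≠ 1) (I : Type) [Infinite I] :
    #(RF G I) = #I := by
  classical
  apply le_antisymm
  · have h1 : #(RF G I) ≤ #(FreeGroup I) :=
      Cardinal.mk_le_of_surjective (QuotientGroup.mk_surjective (s := laws G I))
    rw [Cardinal.mk_freeGroup, max_eq_left (Cardinal.infinite_iff.1 inferInstance)] at h1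
    exact h1
  · refine Cardinal.mk_le_of_injective
      (f := fun i : I => (QuotientGroup.mk (FreeGroup.of i) : RF G I)) ?_
    intro i j hij
    by_contra hne
    have h1 := (QuotientGroup.eq.1 hij)
    rw [mem_laws] at h1
    have h2 := h1 (fun k => if k = j then a else 1)
    simp only [map_mul, map_inv, FreeGroup.lift_apply_of, if_true, hne, if_false, inv_one,
      one_mul] at h2
    exact ha h2

theorem rf_nonab {G : Type} [Group G] {a b : G} (hab : a * b ≠ b * a) (I : Type) [Infinite I] :
    ∃ x y : RF G I, x * y ≠ y * x := by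
  classical
  obtain ⟨i, j, hij⟩ := exists_pair_ne I
  refine ⟨QuotientGroup.mk (FreeGroup.of i), QuotientGroup.mk (FreeGroup.of j), fun h => ?_⟩
  rw [← QuotientGroup.mk_mul, ← QuotientGroup.mk_mul] at h
  have h1 := (QuotientGroup.eq.1 h)
  rw [mem_laws] at h1
  have h2 := h1 (fun k => if k = i then b else a)
  simp only [map_mul, map_inv, FreeGroup.lift_apply_of, if_true, Ne.symm hij, if_false] at h2
  rw [inv_mul_eq_one] at h2
  exact hab h2.symm

theorem uniform {G : Type} [Group G] [Infinite G] {b : List ℤ → ℕ} (hG : UCof G b) (I : Type) :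
    UCof (RF G I) b ∧ ((∃ x y : G, x * y ≠ y * x) → Infinite I →
      #(RF G I) = #I ∧ ∃ x y : RF G I, x * y ≠ y * x) := by
  refine ⟨rf_ucof hG I, ?_⟩
  rintro ⟨x, y, hxy⟩ hI
  have hx : x ≠ 1 := by
    rintro rfl
    simp at hxy
  exact ⟨rf_card hx I, rf_nonab hxy I⟩

end Pool.Agent.Lib.MP_762844_al
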